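import Mathlib

/-! Selmer groups of subgroups of a group, by cocycles; restriction and corestriction. -/

set_option autoImplicit false

namespace Pool.Agent.R333.Sel

/-- a group `Γ` acting on `M`, a subgroup `T`, open normal subgroups `U`, decomposition groups
`D` -/
structure Dat (Γ M : Type) [Group Γ] [AddCommGroup M] where
  act : Representation ℤ Γ M
  T : AddSubgroup M
  hT : ∀ σ, ∀ x ∈ T, act σ x ∈ T
  U : Set (Subgroup Γ)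
  hU : ∀ u ∈ U, u.Normal
  hUi : ∀ u ∈ U, ∀ v ∈ U, u ⊓ v ∈ U
  hTU : ∀ x ∈ T, ∃ u ∈ U, ∀ σ ∈ u, act σ x = x
  D : Set (Subgroup Γ)
  hD : ∀ d ∈ D, ∀ σ : Γ, d.map (MulAut.conj σ).toMonoidHom ∈ D

variable {Γ M : Type} [Group Γ] [AddCommGroup M] (S : Dat Γ M)

theorem act_mul (σ τ : Γ) (x : M) : S.act (σ * τ) x = S.act σ (S.act τ x) := by
  rw [map_mul]
  rfl

theorem act_one (x : M) : S.act 1 x = x := by
  rw [map_one]
  rfl

/-- Selmer cocycles -/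
def Z (Δ : Subgroup Γ) : AddSubgroup (Γ → M) where
  carrier := {c | (∀ σ ∈ Δ, ∀ τ ∈ Δ, c (σ * τ) = c σ + S.act σ (c τ)) ∧ (∀ σ ∈ Δ, c σ ∈ S.T) ∧
    (∃ u ∈ S.U, ∀ σ ∈ u, σ ∈ Δ → c σ = 0) ∧
    ∀ d ∈ S.D, ∃ P, ∀ σ ∈ d, σ ∈ Δ → c σ = S.act σ P - P}
  add_mem' := by
    rintro a b ⟨h1, h2, ⟨u, hu, h3⟩, h4⟩ ⟨k1, k2, ⟨v, hv, k3⟩, k4⟩
    refine ⟨fun σ hσ τ hτ => ?_, fun σ hσ => S.T.add_mem (h2 σ hσ) (k2 σ hσ), ⟨u ⊓ v,
      S.hUi u hu v hv, fun σ hσ hs => ?_⟩, fun d hd => ?_⟩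
    · rw [Pi.add_apply, Pi.add_apply, Pi.add_apply, h1 σ hσ τ hτ, k1 σ hσ τ hτ, map_add]
      abel
    · rw [Pi.add_apply, h3 σ hσ.1 hs, k3 σ hσ.2 hs, add_zero]
    · obtain ⟨P, hP⟩ := h4 d hd
      obtain ⟨Q, hQ⟩ := k4 d hd
      refine ⟨P + Q, fun σ hσ hs => ?_⟩
      rw [Pi.add_apply, hP σ hσ hs, hQ σ hσ hs, map_add]
      abel
  zero_mem' := by
    obtain ⟨u, hu, -⟩ := S.hTU 0 S.T.zero_mem
    exact ⟨fun σ _ τ _ => by simp, fun σ _ => S.T.zero_mem, ⟨u, hu, fun _ _ _ => rfl⟩,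
      fun d _ => ⟨0, fun σ _ _ => by simp⟩⟩
  neg_mem' := by
    rintro a ⟨h1, h2, ⟨u, hu, h3⟩, h4⟩
    refine ⟨fun σ hσ τ hτ => ?_, fun σ hσ => S.T.neg_mem (h2 σ hσ), ⟨u, hu, fun σ hσ hs => ?_⟩,
      fun d hd => ?_⟩
    · rw [Pi.neg_apply, Pi.neg_apply, Pi.neg_apply, h1 σ hσ τ hτ, map_neg]
      abel
    · rw [Pi.neg_apply, h3 σ hσ hs, neg_zero]
    · obtain ⟨P, hP⟩ := h4 d hd
      refine ⟨-P, fun σ hσ hs => ?_⟩
      rw [Pi.neg_apply, hP σ hσ hs, map_neg]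
      abel

theorem mem_Z {Δ : Subgroup Γ} {c : Γ → M} : c ∈ Z S Δ ↔
    (∀ σ ∈ Δ, ∀ τ ∈ Δ, c (σ * τ) = c σ + S.act σ (c τ)) ∧ (∀ σ ∈ Δ, c σ ∈ S.T) ∧
    (∃ u ∈ S.U, ∀ σ ∈ u, σ ∈ Δ → c σ = 0) ∧
    ∀ d ∈ S.D, ∃ P, ∀ σ ∈ d, σ ∈ Δ → c σ = S.act σ P - P := Iff.rfl

/-- coboundaries -/
def B (Δ : Subgroup Γ) : AddSubgroup (Γ → M) where
  carrier := {c | ∃ P ∈ S.T, ∀ σ ∈ Δ, c σ = S.act σ P - P}
  add_mem' := by
    rintro a b ⟨P, hP, h1⟩ ⟨Q, hQ, h2⟩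
    refine ⟨P + Q, S.T.add_mem hP hQ, fun σ hσ => ?_⟩
    rw [Pi.add_apply, h1 σ hσ, h2 σ hσ, map_add]
    abel
  zero_mem' := ⟨0, S.T.zero_mem, fun σ _ => by simp⟩
  neg_mem' := by
    rintro a ⟨P, hP, h1⟩
    refine ⟨-P, S.T.neg_mem hP, fun σ hσ => ?_⟩
    rw [Pi.neg_apply, h1 σ hσ, map_neg]
    abel

theorem mem_B {Δ : Subgroup Γ} {c : Γ → M} : c ∈ B S Δ ↔
    ∃ P ∈ S.T, ∀ σ ∈ Δ, c σ = S.act σ P - P := Iff.rfl

theorem B_le (Δ : Subgroup Γ) : B S Δ ≤ Z S Δ := by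
  rintro c ⟨P, hP, h1⟩
  obtain ⟨u, hu, h2⟩ := S.hTU P hP
  refine ⟨fun σ hσ τ hτ => ?_, fun σ hσ => ?_, ⟨u, hu, fun σ hσ hs => ?_⟩,
    fun d _ => ⟨P, fun σ _ hs => h1 σ hs⟩⟩
  · rw [h1 _ (Δ.mul_mem hσ hτ), h1 σ hσ, h1 τ hτ, map_sub, act_mul]
    abel
  · rw [h1 σ hσ]
    exact S.T.sub_mem (S.hT σ P hP) hP
  · rw [h1 σ hs, h2 σ hσ, sub_self]

/-- the Selmer group -/
abbrev Sm (Δ : Subgroup Γ) : Type := Z S Δ ⧸ (B S Δ).addSubgroupOf (Z S Δ)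

variable {S}

/-- maps between Selmer groups -/
noncomputable def lf {Δ Δ' : Subgroup Γ} (f : (Γ → M) →+ (Γ → M)) (h1 : ∀ c ∈ Z S Δ, f c ∈ Z S Δ')
    (h2 : ∀ c ∈ B S Δ, f c ∈ B S Δ') : Sm S Δ →+ Sm S Δ' :=
  QuotientAddGroup.map _ _ ((f.comp (Z S Δ).subtype).codRestrict (Z S Δ') fun c => h1 c c.2)
    (fun c hc => h2 c hc)

theorem lf_mk {Δ Δ' : Subgroup Γ} (f : (Γ → M) →+ (Γ → M)) (h1 : ∀ c ∈ Z S Δ, f c ∈ Z S Δ')
    (h2 : ∀ c ∈ B S Δ, f c ∈ B S Δ') (c : Z S Δ) :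
    lf f h1 h2 (c : Sm S Δ) = ((⟨f c, h1 c c.2⟩ : Z S Δ') : Sm S Δ') := rfl

theorem mk_eq {Δ : Subgroup Γ} (a b : Z S Δ) (h : (b : Γ → M) - a ∈ B S Δ) :
    (a : Sm S Δ) = (b : Sm S Δ) := by
  rw [QuotientAddGroup.eq]
  change (((-a + b : Z S Δ)) : Γ → M) ∈ B S Δ
  rw [AddSubgroup.coe_add, AddSubgroup.coe_neg, neg_add_eq_sub]
  exact h

variable (S)

/-- restriction -/
theorem Z_mono {Δ Δ' : Subgroup Γ} (h : Δ' ≤ Δ) : Z S Δ ≤ Z S Δ' := by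
  rintro c ⟨h1, h2, ⟨u, hu, h3⟩, h4⟩
  refine ⟨fun σ hσ τ hτ => h1 σ (h hσ) τ (h hτ), fun σ hσ => h2 σ (h hσ),
    ⟨u, hu, fun σ hσ hs => h3 σ hσ (h hs)⟩, fun d hd => ?_⟩
  obtain ⟨P, hP⟩ := h4 d hd
  exact ⟨P, fun σ hσ hs => hP σ hσ (h hs)⟩

theorem B_mono {Δ Δ' : Subgroup Γ} (h : Δ' ≤ Δ) : B S Δ ≤ B S Δ' := by
  rintro c ⟨P, hP, h1⟩
  exact ⟨P, hP, fun σ hσ => h1 σ (h hσ)⟩

/-- the action of `Γ` on the cochains -/
def cj (g : Γ) : (Γ → M) →+ (Γ → M) where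
  toFun c := fun x => S.act g (c (g⁻¹ * x * g))
  map_zero' := by
    ext x
    simp
  map_add' a b := by
    ext x
    simp

theorem cj_apply (g : Γ) (c : Γ → M) (x : Γ) : cj S g c x = S.act g (c (g⁻¹ * x * g)) := rfl

theorem cj_one (c : Γ → M) : cj S 1 c = c := by
  ext x
  rw [cj_apply, act_one]
  simp

theorem cj_mul (g h : Γ) (c : Γ → M) : cj S (g * h) c = cj S g (cj S h c) := by
  ext x
  have e : (g * h)⁻¹ * x * (g * h) = h⁻¹ * (g⁻¹ * x * g) * h := by group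
  rw [cj_apply, cj_apply, cj_apply, act_mul, e]

theorem cj_Z {N : Subgroup Γ} [hN : N.Normal] (g : Γ) (c : Γ → M) (hc : c ∈ Z S N) :
    cj S g c ∈ Z S N := by
  obtain ⟨h1, h2, ⟨u, hu, h3⟩, h4⟩ := hc
  have hn : ∀ x ∈ N, g⁻¹ * x * g ∈ N := fun x hx => by
    have := hN.conj_mem x hx g⁻¹
    rwa [inv_inv] at this
  refine ⟨fun σ hσ τ hτ => ?_, fun σ hσ => S.hT _ _ (h2 _ (hn σ hσ)), ⟨u, hu, fun σ hσ hs => ?_⟩,
    fun d hd => ?_⟩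
  · rw [cj_apply, cj_apply, cj_apply]
    have e : g⁻¹ * (σ * τ) * g = (g⁻¹ * σ * g) * (g⁻¹ * τ * g) := by group
    rw [e, h1 _ (hn σ hσ) _ (hn τ hτ), map_add, ← act_mul, ← act_mul]
    congr 3
    group
  · have := (S.hU u hu).conj_mem σ hσ g⁻¹
    rw [inv_inv] at this
    rw [cj_apply, h3 _ this (hn σ hs), map_zero]
  · obtain ⟨P, hP⟩ := h4 _ (S.hD d hd g⁻¹)
    refine ⟨S.act g P, fun σ hσ hs => ?_⟩
    have h5 : g⁻¹ * σ * g ∈ d.map (MulAut.conj g⁻¹).toMonoidHom := ⟨σ, hσ, by simp⟩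
    rw [cj_apply, hP _ h5 (hn σ hs), map_sub, ← act_mul, ← act_mul]
    congr 3
    group

theorem cj_B {N : Subgroup Γ} [hN : N.Normal] (g : Γ) (c : Γ → M) (hc : c ∈ B S N) :
    cj S g c ∈ B S N := by
  obtain ⟨P, hP, h1⟩ := hc
  refine ⟨S.act g P, S.hT _ _ hP, fun σ hσ => ?_⟩
  have hn : g⁻¹ * σ * g ∈ N := by
    have := hN.conj_mem σ hσ g⁻¹
    rwa [inv_inv] at this
  rw [cj_apply, h1 _ hn, map_sub, ← act_mul, ← act_mul]
  congr 3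
  group

theorem coc_one {Δ : Subgroup Γ} {c : Γ → M}
    (h1 : ∀ σ ∈ Δ, ∀ τ ∈ Δ, c (σ * τ) = c σ + S.act σ (c τ)) : c 1 = 0 := by
  have h := h1 1 Δ.one_mem 1 Δ.one_mem
  rw [mul_one, act_one] at h
  exact left_eq_add.1 h

theorem coc_inv {Δ : Subgroup Γ} {c : Γ → M}
    (h1 : ∀ σ ∈ Δ, ∀ τ ∈ Δ, c (σ * τ) = c σ + S.act σ (c τ)) {σ : Γ} (hσ : σ ∈ Δ) :
    S.act σ (c σ⁻¹) = - c σ := by
  have h := h1 σ hσ σ⁻¹ (Δ.inv_mem hσ)
  rw [mul_inv_cancel, coc_one S h1] at h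
  exact (neg_eq_of_add_eq_zero_right h.symm).symm

/-- `N` acts trivially -/
theorem cj_triv {N : Subgroup Γ} (g : Γ) (hg : g ∈ N) (c : Γ → M) (hc : c ∈ Z S N) :
    cj S g c - c ∈ B S N := by
  obtain ⟨h1, h2, -, -⟩ := hc
  refine ⟨c g, h2 g hg, fun σ hσ => ?_⟩
  have e : g⁻¹ * σ * g = g⁻¹ * (σ * g) := by group
  rw [Pi.sub_apply, cj_apply, e, h1 _ (N.inv_mem hg) _ (N.mul_mem hσ hg), map_add,
    coc_inv S h1 hg, ← act_mul, h1 σ hσ g hg, mul_inv_cancel, act_one]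
  abel

section cor
variable {G : Type} [Group G] (π : Γ →* G) (s : G → Γ) (H : Subgroup G) [Fintype H]

/-- corestriction -/
def cor : (Γ → M) →+ (Γ → M) where
  toFun c := fun σ => ∑ h : H, S.act (s (π σ * h)) (c ((s (π σ * h))⁻¹ * σ * s h))
  map_zero' := by
    ext σ
    simp
  map_add' a b := by
    ext σ
    simp [Finset.sum_add_distrib]

theorem cor_apply (c : Γ → M) (σ : Γ) :
    cor S π s H c σ = ∑ h : H, S.act (s (π σ * h)) (c ((s (π σ * h))⁻¹ * σ * s h)) := rfl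

theorem sum_shift (f : G → M) {a : G} (ha : a ∈ H) : ∑ h : H, f (a * h) = ∑ h : H, f h :=
  Equiv.sum_comp (Equiv.mulLeft (⟨a, ha⟩ : H)) (fun h : H => f h)

variable (hs : ∀ g, π (s g) = g)

include hs

theorem cor_coc {c : Γ → M} (h1 : ∀ σ ∈ π.ker, ∀ τ ∈ π.ker, c (σ * τ) = c σ + S.act σ (c τ)) :
    ∀ σ ∈ H.comap π, ∀ τ ∈ H.comap π,
      cor S π s H c (σ * τ) = cor S π s H c σ + S.act σ (cor S π s H c τ) := by
  intro σ hσ τ hτ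
  have hτ' : π τ ∈ H := hτ
  have key : ∀ h : H, S.act (s (π (σ * τ) * h)) (c ((s (π (σ * τ) * h))⁻¹ * (σ * τ) * s h)) =
      S.act (s (π σ * (π τ * h))) (c ((s (π σ * (π τ * h)))⁻¹ * σ * s (π τ * h))) +
        S.act σ (S.act (s (π τ * h)) (c ((s (π τ * h))⁻¹ * τ * s h))) := by
    intro h
    have e0 : π (σ * τ) * h = π σ * (π τ * h) := by rw [map_mul, mul_assoc]
    rw [e0]
    set t := s (π σ * (π τ * h)) with ht
    set r := s (π τ * h) with hr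
    have e1 : t⁻¹ * (σ * τ) * s h = (t⁻¹ * σ * r) * (r⁻¹ * τ * s h) := by group
    have hx : t⁻¹ * σ * r ∈ π.ker := by
      rw [MonoidHom.mem_ker, map_mul, map_mul, map_inv, ht, hr, hs, hs]
      group
    have hy : r⁻¹ * τ * s h ∈ π.ker := by
      rw [MonoidHom.mem_ker, map_mul, map_mul, map_inv, hr, hs, hs]
      group
    have e2 : t * (t⁻¹ * σ * r) = σ * r := by group
    rw [e1, h1 _ hx _ hy, map_add, ← act_mul, ← act_mul, e2]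
  rw [cor_apply, Finset.sum_congr rfl fun h _ => key h, Finset.sum_add_distrib, ← map_sum,
    ← cor_apply, cor_apply S π s H c σ,
    sum_shift H (fun g => S.act (s (π σ * g)) (c ((s (π σ * g))⁻¹ * σ * s g))) hτ']

omit hs in
theorem cor_res (c : Γ → M) {σ : Γ} (hσ : σ ∈ π.ker) :
    cor S π s H c σ = (∑ h : H, cj S (s h) c) σ := by
  have hσ' : π σ = 1 := hσ
  rw [cor_apply, Finset.sum_apply]
  refine Finset.sum_congr rfl fun h _ => ?_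
  rw [hσ', one_mul, cj_apply]

/-- local triviality -/
theorem loc (d : Subgroup Γ) (e : Γ → M)
    (he : ∀ σ ∈ H.comap π, ∀ τ ∈ H.comap π, e (σ * τ) = e σ + S.act σ (e τ)) (P : M)
    (hP : ∀ σ ∈ d, σ ∈ π.ker → e σ = S.act σ P - P) :
    ∃ P', ∀ σ ∈ d, σ ∈ H.comap π → Fintype.card H • e σ = S.act σ P' - P' := by
  classical
  let Hd : Subgroup G := (d ⊓ H.comap π).map π
  have hle : Hd ≤ H := by
    rintro _ ⟨x, hx, rfl⟩
    exact hx.2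
  have hfin : Finite Hd := Finite.of_injective (Subgroup.inclusion hle)
    (Subgroup.inclusion_injective hle)
  let _ : Fintype Hd := Fintype.ofFinite _
  have hex : ∀ h : Hd, ∃ t : Γ, t ∈ d ∧ t ∈ H.comap π ∧ π t = h := by
    rintro ⟨_, x, hx, rfl⟩
    exact ⟨x, hx.1, hx.2, rfl⟩
  choose t ht1 ht2 ht3 using hex
  have hker : ∀ {x : Γ}, x ∈ π.ker → x ∈ H.comap π := by
    intro x hx
    change π x ∈ H
    rw [MonoidHom.mem_ker.1 hx]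
    exact H.one_mem
  obtain ⟨e', he'⟩ : ∃ e' : Γ → M, ∀ σ, e' σ = e σ - (S.act σ P - P) := ⟨_, fun _ => rfl⟩
  have hcoc : ∀ σ ∈ H.comap π, ∀ τ ∈ H.comap π, e' (σ * τ) = e' σ + S.act σ (e' τ) := by
    intro σ hσ τ hτ
    rw [he', he', he', he σ hσ τ hτ, map_sub, map_sub, act_mul]
    abel
  have hz : ∀ σ ∈ d, σ ∈ π.ker → e' σ = 0 := by
    intro σ hσ hk
    rw [he', hP σ hσ hk, sub_self]
  have hpi : ∀ σ ∈ d, σ ∈ H.comap π → ∀ τ ∈ d, τ ∈ H.comap π → π σ = π τ → e' σ = e' τ := by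
    intro σ h1 h2 τ h3 h4 h5
    have hk : τ⁻¹ * σ ∈ π.ker := by
      rw [MonoidHom.mem_ker, map_mul, map_inv, h5, inv_mul_cancel]
    have e1 : σ = τ * (τ⁻¹ * σ) := by group
    rw [e1, hcoc τ h4 _ (hker hk), hz _ (d.mul_mem (d.inv_mem h3) h1) hk, map_zero, add_zero]
  set b : M := ∑ h : Hd, e' (t h) with hb
  have hmain : ∀ σ ∈ d, σ ∈ H.comap π → Fintype.card Hd • e' σ = b - S.act σ b := by
    intro σ h1 h2
    have hσ : π σ ∈ Hd := ⟨σ, ⟨h1, h2⟩, rfl⟩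
    have h3 : ∀ h : Hd, S.act σ (e' (t h)) = e' (t (⟨π σ, hσ⟩ * h)) - e' σ := by
      intro h
      have h4 := hcoc σ h2 (t h) (ht2 h)
      have h5 : e' (σ * t h) = e' (t (⟨π σ, hσ⟩ * h)) := by
        refine hpi _ (d.mul_mem h1 (ht1 h)) ((H.comap π).mul_mem h2 (ht2 h)) _ (ht1 _) (ht2 _) ?_
        rw [map_mul, ht3, ht3]
        rfl
      rw [← h5, h4]
      abel
    have h6 : ∑ x : Hd, e' (t (⟨π σ, hσ⟩ * x)) = ∑ h : Hd, e' (t h) :=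
      Equiv.sum_comp (Equiv.mulLeft (⟨π σ, hσ⟩ : Hd)) (fun h => e' (t h))
    rw [hb, map_sum, Finset.sum_congr rfl fun h _ => h3 h, Finset.sum_sub_distrib, h6,
      Finset.sum_const, Finset.card_univ]
    abel
  obtain ⟨k, hk⟩ : Fintype.card Hd ∣ Fintype.card H := by
    rw [← Nat.card_eq_fintype_card, ← Nat.card_eq_fintype_card]
    exact Subgroup.card_dvd_of_le hle
  refine ⟨Fintype.card H • P - k • b, fun σ h1 h2 => ?_⟩
  have h3 := hmain σ h1 h2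
  have h4 : e σ = e' σ + (S.act σ P - P) := by
    rw [he']
    abel
  rw [h4, smul_add, smul_sub, map_sub, map_nsmul, map_nsmul]
  have h5 : Fintype.card H • e' σ = k • b - k • S.act σ b := by
    rw [hk, mul_comm, mul_smul, h3, smul_sub]
  rw [h5]
  abel

variable (hN : π.ker ∈ S.U)
include hN

theorem cor_Z (c : Γ → M) (hc : c ∈ Z S π.ker) :
    Fintype.card H • cor S π s H c ∈ Z S (H.comap π) := by
  obtain ⟨h1, h2, ⟨u, hu, h3⟩, h4⟩ := id hc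
  have hcoc := cor_coc S π s H hs h1
  have hker : ∀ g h : G, ∀ σ : Γ, g = π σ * h → (s g)⁻¹ * σ * s h ∈ π.ker := by
    intro g h σ hg
    rw [MonoidHom.mem_ker, map_mul, map_mul, map_inv, hs, hs, hg]
    group
  refine ⟨fun σ hσ τ hτ => ?_, fun σ hσ => ?_, ⟨u ⊓ π.ker, S.hUi u hu _ hN, fun σ hσ hs' => ?_⟩,
    fun d hd => ?_⟩
  · rw [Pi.smul_apply, Pi.smul_apply, Pi.smul_apply, hcoc σ hσ τ hτ, smul_add, map_nsmul]
  · rw [Pi.smul_apply]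
    refine S.T.nsmul_mem ?_ _
    rw [cor_apply]
    exact S.T.sum_mem fun h _ => S.hT _ _ (h2 _ (hker _ _ _ rfl))
  · rw [Pi.smul_apply, cor_res S π s H c hσ.2, Finset.sum_apply, Finset.sum_eq_zero, smul_zero]
    intro h _
    have h5 := (S.hU u hu).conj_mem σ hσ.1 (s h)⁻¹
    rw [inv_inv] at h5
    have h6 := (S.hU _ hN).conj_mem σ hσ.2 (s h)⁻¹
    rw [inv_inv] at h6
    rw [cj_apply, h3 _ h5 h6, map_zero]
  · have h5 : (∑ h : H, cj S (s h) c) ∈ Z S π.ker := AddSubgroup.sum_mem _ fun h _ => cj_Z S _ c hc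
    obtain ⟨P, hP⟩ := h5.2.2.2 d hd
    refine loc S π H (s := s) hs d (cor S π s H c) hcoc P fun σ hσ hk => ?_
    rw [cor_res S π s H c hk, hP σ hσ hk]

omit hN in
theorem cor_B (c : Γ → M) (hc : c ∈ B S π.ker) : cor S π s H c ∈ B S (H.comap π) := by
  obtain ⟨P, hP, h1⟩ := hc
  refine ⟨∑ h : H, S.act (s h) P, S.T.sum_mem fun h _ => S.hT _ _ hP, fun σ hσ => ?_⟩
  have hσ' : π σ ∈ H := hσ
  have key : ∀ h : H, S.act (s (π σ * h)) (c ((s (π σ * h))⁻¹ * σ * s h)) =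
      S.act σ (S.act (s h) P) - S.act (s (π σ * h)) P := by
    intro h
    have hk : (s (π σ * h))⁻¹ * σ * s h ∈ π.ker := by
      rw [MonoidHom.mem_ker, map_mul, map_mul, map_inv, hs, hs]
      group
    rw [h1 _ hk, map_sub, ← act_mul, ← act_mul]
    congr 3
    group
  rw [cor_apply, Finset.sum_congr rfl fun h _ => key h, Finset.sum_sub_distrib, map_sum,
    sum_shift H (fun g => S.act (s g) P) hσ']

omit hN in
/-- corestriction after restriction -/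
theorem res_cor (c : Γ → M) (hc : c ∈ Z S (H.comap π)) :
    cor S π s H c - Fintype.card H • c ∈ B S (H.comap π) := by
  obtain ⟨h1, h2, -, -⟩ := hc
  have hsH : ∀ h : G, h ∈ H → s h ∈ H.comap π := fun h hh => by
    change π (s h) ∈ H
    rw [hs]
    exact hh
  refine ⟨∑ h : H, c (s h), S.T.sum_mem fun h _ => h2 _ (hsH h h.2), fun σ hσ => ?_⟩
  have hσ' : π σ ∈ H := hσ
  have key : ∀ h : H, S.act (s (π σ * h)) (c ((s (π σ * h))⁻¹ * σ * s h)) =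
      c σ + S.act σ (c (s h)) - c (s (π σ * h)) := by
    intro h
    have hg : s (π σ * h) ∈ H.comap π := hsH _ (H.mul_mem hσ' h.2)
    rw [mul_assoc, h1 _ ((H.comap π).inv_mem hg) _ ((H.comap π).mul_mem hσ (hsH h h.2)), map_add,
      coc_inv S h1 hg, ← act_mul, h1 σ hσ _ (hsH h h.2), mul_inv_cancel, act_one]
    abel
  rw [Pi.sub_apply, Pi.smul_apply, cor_apply, Finset.sum_congr rfl fun h _ => key h,
    Finset.sum_sub_distrib, Finset.sum_add_distrib, Finset.sum_const, Finset.card_univ, map_sum,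
    sum_shift H (fun g => c (s g)) hσ']
  abel

end cor

end Pool.Agent.R333.Sel
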