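import Pool.Agent.R333.Sel.Part

/-! Locally trivial classes in Galois cohomology, by cocycles. -/

set_option autoImplicit false

namespace Pool.Agent.R333.Sel

open scoped Classical

section defs
variable {F Ω A : Type} [Field F] [Field Ω] [Algebra F Ω] [AddCommGroup A]

/-- `c : Gal(Ω/F) → A` is a cocycle for the action `ρ` of `Gal(Ω/F)` on `A`. -/
def IsCocycle (ρ : Gal(Ω/F) →* AddMonoid.End A) (c : Gal(Ω/F) → A) : Prop :=
  ∀ σ τ : Gal(Ω/F), c (σ * τ) = c σ + ρ σ (c τ)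

/-- `c` vanishes on the open subgroup of the automorphisms that fix the elements of a finite subset
`s` of `Ω` (for a cocycle: `c` is continuous). -/
def VanishesOnOpen (c : Gal(Ω/F) → A) : Prop :=
  ∃ s : Finset Ω, ∀ σ : Gal(Ω/F), (∀ x ∈ s, σ x = x) → c σ = 0

/-- For every nontrivial absolute value `v` of `Ω`, `c` is a coboundary in `A` on the decomposition
group of `v`, the stabilizer of `v` in `Gal(Ω/F)`. -/
def IsLocallyTrivial (ρ : Gal(Ω/F) →* AddMonoid.End A) (c : Gal(Ω/F) → A) : Prop :=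
  ∀ v : AbsoluteValue Ω ℝ, v.IsNontrivial → ∃ P : A,
    ∀ σ : Gal(Ω/F), (∀ x, v (σ x) = v x) → c σ = ρ σ P - P

/-- `c` is a continuous, locally trivial cocycle with values in the subgroup `T` of `A`. -/
def IsSelCocycle (ρ : Gal(Ω/F) →* AddMonoid.End A) (T : AddSubgroup A) (c : Gal(Ω/F) → A) :
    Prop :=
  IsCocycle ρ c ∧ (∀ σ, c σ ∈ T) ∧ VanishesOnOpen c ∧ IsLocallyTrivial ρ c

/-- `c` is a coboundary: `c σ = σ P - P` with `P` in `T`. -/
def IsSelCoboundary (ρ : Gal(Ω/F) →* AddMonoid.End A) (T : AddSubgroup A) (c : Gal(Ω/F) → A) :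
    Prop :=
  ∃ P ∈ T, ∀ σ : Gal(Ω/F), c σ = ρ σ P - P

/-- The quotient of the subgroup `Z` by its elements that are in the subgroup `B`. -/
def Quo {C : Type} [AddCommGroup C] (Z B : AddSubgroup C) : Type := Z ⧸ B.addSubgroupOf Z

noncomputable instance {C : Type} [AddCommGroup C] (Z B : AddSubgroup C) :
    AddCommGroup (Quo Z B) :=
  QuotientAddGroup.Quotient.addCommGroup (B.addSubgroupOf Z)

variable {ρ : Gal(Ω/F) →* AddMonoid.End A} {T : AddSubgroup A}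

theorem sel_add {a b : Gal(Ω/F) → A} (ha : IsSelCocycle ρ T a) (hb : IsSelCocycle ρ T b) :
    IsSelCocycle ρ T (a + b) := by
  obtain ⟨h1, h2, ⟨s, h3⟩, h4⟩ := ha
  obtain ⟨k1, k2, ⟨t, k3⟩, k4⟩ := hb
  refine ⟨fun σ τ => ?_, fun σ => T.add_mem (h2 σ) (k2 σ), ⟨s ∪ t, fun σ hσ => ?_⟩, fun v hv => ?_⟩
  · rw [Pi.add_apply, Pi.add_apply, Pi.add_apply, h1, k1, map_add]
    abel
  · rw [Pi.add_apply, h3 σ fun x hx => hσ x (Finset.mem_union_left _ hx),
      k3 σ fun x hx => hσ x (Finset.mem_union_right _ hx), add_zero]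
  · obtain ⟨P, hP⟩ := h4 v hv
    obtain ⟨Q, hQ⟩ := k4 v hv
    refine ⟨P + Q, fun σ hσ => ?_⟩
    rw [Pi.add_apply, hP σ hσ, hQ σ hσ, map_add]
    abel

theorem sel_zero : IsSelCocycle ρ T 0 :=
  ⟨fun σ τ => by simp, fun _ => T.zero_mem, ⟨∅, fun _ _ => rfl⟩, fun _ _ => ⟨0, fun σ _ => by simp⟩⟩

theorem sel_neg {a : Gal(Ω/F) → A} (ha : IsSelCocycle ρ T a) : IsSelCocycle ρ T (-a) := by
  obtain ⟨h1, h2, ⟨s, h3⟩, h4⟩ := ha
  refine ⟨fun σ τ => ?_, fun σ => T.neg_mem (h2 σ), ⟨s, fun σ hσ => ?_⟩, fun v hv => ?_⟩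
  · rw [Pi.neg_apply, Pi.neg_apply, Pi.neg_apply, h1, map_neg]
    abel
  · rw [Pi.neg_apply, h3 σ hσ, neg_zero]
  · obtain ⟨P, hP⟩ := h4 v hv
    refine ⟨-P, fun σ hσ => ?_⟩
    rw [Pi.neg_apply, hP σ hσ, map_neg]
    abel

theorem bd_add {a b : Gal(Ω/F) → A} (ha : IsSelCoboundary ρ T a) (hb : IsSelCoboundary ρ T b) :
    IsSelCoboundary ρ T (a + b) := by
  obtain ⟨P, hP, h1⟩ := ha
  obtain ⟨Q, hQ, h2⟩ := hb
  refine ⟨P + Q, T.add_mem hP hQ, fun σ => ?_⟩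
  rw [Pi.add_apply, h1, h2, map_add]
  abel

theorem bd_zero : IsSelCoboundary ρ T 0 := ⟨0, T.zero_mem, fun σ => by simp⟩

theorem bd_neg {a : Gal(Ω/F) → A} (ha : IsSelCoboundary ρ T a) : IsSelCoboundary ρ T (-a) := by
  obtain ⟨P, hP, h1⟩ := ha
  refine ⟨-P, T.neg_mem hP, fun σ => ?_⟩
  rw [Pi.neg_apply, h1, map_neg]
  abel

variable (ρ T)

/-- The group of the locally trivial cocycles. -/
def selCocycles : AddSubgroup (Gal(Ω/F) → A) where
  carrier := {c | IsSelCocycle ρ T c}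
  add_mem' := sel_add
  zero_mem' := sel_zero
  neg_mem' := sel_neg

/-- The group of the coboundaries. -/
def selCoboundaries : AddSubgroup (Gal(Ω/F) → A) where
  carrier := {c | IsSelCoboundary ρ T c}
  add_mem' := bd_add
  zero_mem' := bd_zero
  neg_mem' := bd_neg

/-- The group of the classes of `H¹(F, T)` that become trivial in `H¹(·, A)` on all decomposition
groups: the cocycles modulo the coboundaries. -/
abbrev Sel : Type := Quo (selCocycles ρ T) (selCoboundaries ρ T)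

end defs

section dat
variable {K Ω A : Type} [Field K] [Field Ω] [Algebra K Ω] [AddCommGroup A]
  (ρ : Gal(Ω/K) →* AddMonoid.End A) (T : AddSubgroup A)

/-- the representation -/
def rep : Representation ℤ Gal(Ω/K) A where
  toFun σ := (ρ σ).toIntLinearMap
  map_one' := by
    rw [map_one]
    rfl
  map_mul' σ τ := by
    rw [map_mul]
    rfl

theorem rep_apply (σ : Gal(Ω/K)) (x : A) : rep ρ σ x = ρ σ x := rfl

/-- the stabilizer of an absolute value -/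
def stb (K : Type) {Ω : Type} [Field K] [Field Ω] [Algebra K Ω] (v : AbsoluteValue Ω ℝ) :
    Subgroup Gal(Ω/K) where
  carrier := {σ | ∀ x, v (σ x) = v x}
  mul_mem' := by
    intro a b ha hb x
    rw [AlgEquiv.mul_apply, ha, hb]
  one_mem' := fun x => rfl
  inv_mem' := by
    intro a ha x
    have h := ha (a⁻¹ x)
    rw [← h, ← AlgEquiv.mul_apply, mul_inv_cancel]
    rfl

theorem mem_stb {v : AbsoluteValue Ω ℝ} {σ : Gal(Ω/K)} : σ ∈ stb K v ↔ ∀ x, v (σ x) = v x :=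
  Iff.rfl

/-- the stabilizer of a finite set and its conjugates -/
theorem exists_open [Algebra.IsAlgebraic K Ω] (s : Finset Ω) : ∃ u : Subgroup Gal(Ω/K), u.Normal ∧
    (∃ t : Finset Ω, ∀ σ : Gal(Ω/K), (∀ x ∈ t, σ x = x) → σ ∈ u) ∧
    ∀ σ ∈ u, ∀ x ∈ s, σ x = x := by
  set t : Finset Ω := s.biUnion fun x => ((minpoly K x).aroots Ω).toFinset with ht
  have hmem : ∀ z : Ω, z ∈ t ↔ ∃ x ∈ s, Polynomial.aeval z (minpoly K x) = 0 := by
    intro z
    rw [ht, Finset.mem_biUnion]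
    refine exists_congr fun x => and_congr_right fun hx => ?_
    rw [Multiset.mem_toFinset, Polynomial.mem_aroots]
    exact ⟨fun h => h.2, fun h => ⟨minpoly.ne_zero (Algebra.IsIntegral.isIntegral x), h⟩⟩
  have hstab : ∀ (σ : Gal(Ω/K)) (z : Ω), z ∈ t → σ z ∈ t := by
    intro σ z hz
    obtain ⟨x, hx, h⟩ := (hmem z).1 hz
    refine (hmem _).2 ⟨x, hx, ?_⟩
    have h1 := Polynomial.aeval_algHom_apply (σ : Ω →ₐ[K] Ω) z (minpoly K x)
    have h2 : Polynomial.aeval (σ z) (minpoly K x) = σ (Polynomial.aeval z (minpoly K x)) := h1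
    rw [h2, h, map_zero]
  let u : Subgroup Gal(Ω/K) :=
    { carrier := {σ | ∀ x ∈ t, σ x = x}
      mul_mem' := by
        intro a b ha hb x hx
        rw [AlgEquiv.mul_apply, hb x hx, ha x hx]
      one_mem' := fun x _ => rfl
      inv_mem' := by
        intro a ha x hx
        have h := ha x hx
        conv_lhs => rw [← h]
        rw [← AlgEquiv.mul_apply, inv_mul_cancel]
        rfl }
  refine ⟨u, ⟨fun σ hσ τ x hx => ?_⟩, ⟨t, fun σ hσ => hσ⟩, fun σ hσ x hx => ?_⟩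
  · have h1 : σ (τ⁻¹ x) = τ⁻¹ x := hσ _ (hstab τ⁻¹ x hx)
    rw [AlgEquiv.mul_apply, AlgEquiv.mul_apply, h1, ← AlgEquiv.mul_apply, mul_inv_cancel]
    rfl
  · exact hσ x ((hmem x).2 ⟨x, hx, minpoly.aeval K x⟩)

variable (hT : ∀ σ, ∀ x ∈ T, ρ σ x ∈ T)
  (hρ : ∀ P : A, ∃ s : Finset Ω, ∀ σ : Gal(Ω/K), (∀ x ∈ s, σ x = x) → ρ σ P = P)

/-- the data -/
noncomputable def sdat [Algebra.IsAlgebraic K Ω] : Dat Gal(Ω/K) A where
  act := rep ρ
  T := T
  hT := hT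
  U := {u | u.Normal ∧ ∃ t : Finset Ω, ∀ σ : Gal(Ω/K), (∀ x ∈ t, σ x = x) → σ ∈ u}
  hU := fun u hu => hu.1
  hUi := by
    rintro u ⟨hu, s, hs⟩ v ⟨hv, t, ht⟩
    exact ⟨inferInstance, s ∪ t, fun σ hσ => ⟨hs σ fun x hx => hσ x (Finset.mem_union_left _ hx),
      ht σ fun x hx => hσ x (Finset.mem_union_right _ hx)⟩⟩
  hTU := by
    intro P _
    obtain ⟨s, hs⟩ := hρ P
    obtain ⟨u, h1, h2, h3⟩ := exists_open (K := K) s
    exact ⟨u, ⟨h1, h2⟩, fun σ hσ => hs σ (h3 σ hσ)⟩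
  D := {d | ∃ v : AbsoluteValue Ω ℝ, v.IsNontrivial ∧ d = stb K v}
  hD := by
    rintro _ ⟨v, hv, rfl⟩ σ
    have hinj : Function.Injective ((σ⁻¹ : Gal(Ω/K)) : Ω →+* Ω) := RingHom.injective _
    refine ⟨v.comp hinj, ?_, ?_⟩
    · obtain ⟨x, hx0, hx⟩ := hv
      refine ⟨σ x, ?_, ?_⟩
      · rw [ne_eq, map_eq_zero]
        exact hx0
      · change v (σ⁻¹ (σ x)) ≠ 1
        rw [← AlgEquiv.mul_apply, inv_mul_cancel]
        exact hx
    · ext τ
      have h1 : τ ∈ (stb K v).map (MulAut.conj σ).toMonoidHom ↔ σ⁻¹ * τ * σ ∈ stb K v := by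
        constructor
        · rintro ⟨ρ, hρ, rfl⟩
          have : σ⁻¹ * ((MulAut.conj σ).toMonoidHom ρ) * σ = ρ := by
            change σ⁻¹ * (σ * ρ * σ⁻¹) * σ = ρ
            group
          rw [this]
          exact hρ
        · intro h
          refine ⟨_, h, ?_⟩
          change σ * (σ⁻¹ * τ * σ) * σ⁻¹ = τ
          group
      rw [h1, mem_stb, mem_stb]
      constructor
      · intro h x
        have h2 := h (σ⁻¹ x)
        change v (σ⁻¹ (τ x)) = v (σ⁻¹ x)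
        have e : (σ⁻¹ * τ * σ) (σ⁻¹ x) = σ⁻¹ (τ x) := by
          rw [← AlgEquiv.mul_apply, mul_assoc, mul_inv_cancel, mul_one, AlgEquiv.mul_apply]
        rw [← e, h2]
      · intro h x
        have h2 := h (σ x)
        change v (σ⁻¹ (τ (σ x))) = v (σ⁻¹ (σ x)) at h2
        rw [AlgEquiv.mul_apply, AlgEquiv.mul_apply, h2, ← AlgEquiv.mul_apply, inv_mul_cancel]
        rfl

section tower
variable (F : Type) [Field F] [Algebra K F] [Algebra F Ω] [IsScalarTower K F Ω]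

/-- the subgroup `Gal(Ω/F)` of `Gal(Ω/K)` -/
def jr : Subgroup Gal(Ω/K) := (AlgEquiv.restrictScalarsHom K : Gal(Ω/F) →* Gal(Ω/K)).range

variable {F} in
/-- the automorphism as an element of `Gal(Ω/K)` -/
abbrev rr (σ : Gal(Ω/F)) : Gal(Ω/K) := AlgEquiv.restrictScalarsHom K σ

theorem mem_jr {σ : Gal(Ω/K)} : σ ∈ jr (Ω := Ω) (K := K) F ↔ ∀ x : F, σ (algebraMap F Ω x) = algebraMap F Ω x := by
  constructor
  · rintro ⟨τ, rfl⟩ x
    exact τ.commutes x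
  · intro h
    exact ⟨AlgEquiv.ofRingEquiv (f := σ.toRingEquiv) h, rfl⟩

/-- the action of `Gal(Ω/F)` -/
def resAct : Gal(Ω/F) →* AddMonoid.End A := ρ.comp (AlgEquiv.restrictScalarsHom K)

/-- restriction of cochains -/
def r0 : (Gal(Ω/K) → A) →+ (Gal(Ω/F) → A) where
  toFun c σ := c (AlgEquiv.restrictScalarsHom K σ)
  map_zero' := rfl
  map_add' _ _ := rfl

/-- extension by zero -/
noncomputable def e0 : (Gal(Ω/F) → A) →+ (Gal(Ω/K) → A) where
  toFun c σ := if h : σ ∈ jr (Ω := Ω) (K := K) F then c h.choose else 0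
  map_zero' := by
    ext σ
    by_cases h : σ ∈ jr (Ω := Ω) (K := K) F
    · rw [dif_pos h]; rfl
    · rw [dif_neg h]; rfl
  map_add' a b := by
    ext σ
    by_cases h : σ ∈ jr (Ω := Ω) (K := K) F
    · rw [dif_pos h, Pi.add_apply, Pi.add_apply, dif_pos h, dif_pos h]
    · rw [dif_neg h, Pi.add_apply, dif_neg h, dif_neg h, add_zero]

theorem r0_e0 (c : Gal(Ω/F) → A) : r0 (K := K) F (e0 (K := K) F c) = c := by
  ext σ
  have h : AlgEquiv.restrictScalarsHom K σ ∈ jr (Ω := Ω) (K := K) F := ⟨σ, rfl⟩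
  change (if h : AlgEquiv.restrictScalarsHom K σ ∈ jr (Ω := Ω) (K := K) F then c h.choose else 0) =
    c σ
  rw [dif_pos h]
  congr 1
  exact AlgEquiv.restrictScalarsHom_injective K h.choose_spec

variable [Algebra.IsAlgebraic K Ω]

theorem mem_Z_iff (c : Gal(Ω/K) → A) :
    c ∈ Z (sdat ρ T hT hρ) (jr F) ↔ IsSelCocycle (resAct ρ F) T (r0 F c) := by
  constructor
  · rintro ⟨h1, h2, ⟨u, ⟨hu, s, hs⟩, h3⟩, h4⟩
    refine ⟨fun σ τ => h1 _ ⟨σ, rfl⟩ _ ⟨τ, rfl⟩, fun σ => h2 _ ⟨σ, rfl⟩,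
      ⟨s, fun σ hσ => h3 _ (hs _ hσ) ⟨σ, rfl⟩⟩, fun v hv => ?_⟩
    obtain ⟨P, hP⟩ := h4 _ ⟨v, hv, rfl⟩
    exact ⟨P, fun σ hσ => hP _ hσ ⟨σ, rfl⟩⟩
  · rintro ⟨h1, h2, ⟨s, h3⟩, h4⟩
    obtain ⟨u, hu1, hu2, hu3⟩ := exists_open (K := K) s
    refine ⟨?_, ?_, ⟨u, ⟨hu1, hu2⟩, ?_⟩, ?_⟩
    · rintro _ ⟨σ, rfl⟩ _ ⟨τ, rfl⟩
      exact h1 σ τ
    · rintro _ ⟨σ, rfl⟩
      exact h2 σ
    · rintro _ hσ ⟨σ, rfl⟩
      exact h3 σ (hu3 _ hσ)
    · rintro _ ⟨v, hv, rfl⟩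
      obtain ⟨P, hP⟩ := h4 v hv
      refine ⟨P, ?_⟩
      rintro _ hσ ⟨σ, rfl⟩
      exact hP σ hσ

theorem mem_B_iff (c : Gal(Ω/K) → A) :
    c ∈ B (sdat ρ T hT hρ) (jr F) ↔ IsSelCoboundary (resAct ρ F) T (r0 F c) := by
  constructor
  · rintro ⟨P, hP, h⟩
    exact ⟨P, hP, fun σ => h _ ⟨σ, rfl⟩⟩
  · rintro ⟨P, hP, h⟩
    refine ⟨P, hP, ?_⟩
    rintro _ ⟨σ, rfl⟩
    exact h σ

theorem e0_mem (c : selCocycles (resAct ρ F) T) :
    ((e0 F).comp (selCocycles (resAct ρ F) T).subtype) c ∈ Z (sdat ρ T hT hρ) (jr F) := by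
  rw [mem_Z_iff]
  change IsSelCocycle (resAct ρ F) T (r0 F (e0 F c))
  rw [r0_e0]
  exact c.2

theorem r0_mem (c : Z (sdat ρ T hT hρ) (jr F)) :
    ((r0 F).comp (Z (sdat ρ T hT hρ) (jr F)).subtype) c ∈ selCocycles (resAct ρ F) T :=
  (mem_Z_iff ρ T hT hρ F c).1 c.2

/-- forward -/
noncomputable def fwd : Sel (resAct ρ F) T →+ Sm (sdat ρ T hT hρ) (jr F) :=
  QuotientAddGroup.map ((selCoboundaries (resAct ρ F) T).addSubgroupOf (selCocycles (resAct ρ F) T))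
    ((B (sdat ρ T hT hρ) (jr F)).addSubgroupOf (Z (sdat ρ T hT hρ) (jr F)))
    (((e0 F).comp (selCocycles (resAct ρ F) T).subtype).codRestrict (Z (sdat ρ T hT hρ) (jr F))
      (e0_mem ρ T hT hρ F)) (fun c hc => by
        have h1 : IsSelCoboundary (resAct ρ F) T (r0 (K := K) F (e0 (K := K) F c)) := by
          rw [r0_e0]
          exact hc
        exact (mem_B_iff ρ T hT hρ F _).2 h1)

/-- backward -/
noncomputable def bwd : Sm (sdat ρ T hT hρ) (jr F) →+ Sel (resAct ρ F) T :=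
  QuotientAddGroup.map ((B (sdat ρ T hT hρ) (jr F)).addSubgroupOf (Z (sdat ρ T hT hρ) (jr F)))
    ((selCoboundaries (resAct ρ F) T).addSubgroupOf (selCocycles (resAct ρ F) T))
    (((r0 F).comp (Z (sdat ρ T hT hρ) (jr F)).subtype).codRestrict (selCocycles (resAct ρ F) T)
      (r0_mem ρ T hT hρ F)) (fun c hc => (mem_B_iff ρ T hT hρ F c).1 hc)

/-- the two groups -/
noncomputable def selEquiv : Sel (resAct ρ F) T ≃+ Sm (sdat ρ T hT hρ) (jr F) where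
  toFun := fwd ρ T hT hρ F
  invFun := bwd ρ T hT hρ F
  left_inv := by
    intro x
    obtain ⟨c, rfl⟩ := QuotientAddGroup.mk_surjective x
    change (((⟨r0 (K := K) F (e0 (K := K) F c), r0_mem ρ T hT hρ F ⟨_, e0_mem ρ T hT hρ F c⟩⟩ :
      selCocycles (resAct ρ F) T)) : selCocycles (resAct ρ F) T ⧸
        (selCoboundaries (resAct ρ F) T).addSubgroupOf (selCocycles (resAct ρ F) T)) = _
    congr 1
    exact Subtype.ext (r0_e0 F (c : Gal(Ω/F) → A))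
  right_inv := by
    intro x
    obtain ⟨c, rfl⟩ := QuotientAddGroup.mk_surjective x
    change (((⟨e0 (K := K) F (r0 (K := K) F c), e0_mem ρ T hT hρ F ⟨_, r0_mem ρ T hT hρ F c⟩⟩ :
      Z (sdat ρ T hT hρ) (jr F))) : Sm (sdat ρ T hT hρ) (jr F)) = _
    refine mk_eq _ _ ⟨0, AddSubgroup.zero_mem _, ?_⟩
    rintro _ ⟨σ, rfl⟩
    rw [map_zero, sub_zero, Pi.sub_apply, sub_eq_zero]
    exact (congrFun (r0_e0 (K := K) F (r0 F (c : Gal(Ω/K) → A))) σ).symm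
  map_add' := map_add _

end tower

end dat

end Pool.Agent.R333.Sel
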