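import Pool.Agent.R333.Sel.Tow

/-! Divisible subgroups. -/

set_option autoImplicit false

namespace Pool.Agent.R333.Sel

open scoped Classical

/-- no nonzero divisible subgroup -/
def NoDiv (S : Type) [AddCommGroup S] : Prop :=
  ∀ D : AddSubgroup S, (∀ n : ℕ, n ≠ 0 → ∀ x ∈ D, ∃ y ∈ D, n • y = x) → D = ⊥

theorem noDiv_congr {S S' : Type} [AddCommGroup S] [AddCommGroup S'] (e : S ≃+ S') (h : NoDiv S) :
    NoDiv S' := by
  intro D hD
  have h1 := h (D.comap e.toAddMonoidHom) (fun n hn x hx => by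
    obtain ⟨y, hy, h2⟩ := hD n hn (e x) hx
    refine ⟨e.symm y, ?_, ?_⟩
    · change e (e.symm y) ∈ D
      rw [e.apply_symm_apply]
      exact hy
    · apply e.injective
      rw [map_nsmul, e.apply_symm_apply, h2])
  rw [eq_bot_iff]
  intro x hx
  have h3 : e.symm x ∈ D.comap e.toAddMonoidHom := by
    change e (e.symm x) ∈ D
    rw [e.apply_symm_apply]
    exact hx
  rw [h1, AddSubgroup.mem_bot] at h3
  rw [AddSubgroup.mem_bot, ← e.apply_symm_apply x, h3, map_zero]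

section main
variable {Γ M : Type} [Group Γ] [AddCommGroup M] (S : Dat Γ M)
variable {G : Type} [Group G] [Finite G] (π : Γ →* G) (s : G → Γ) (hs : ∀ g, π (s g) = g)
  (hN : π.ker ∈ S.U)

theorem arith4 {A : Type} [AddCommGroup A] {n : ℤ} (hn : n ≠ 0) {D : AddSubgroup A}
    (hD : ∀ n : ℕ, n ≠ 0 → ∀ x ∈ D, ∃ y ∈ D, n • y = x) (h : ∀ x ∈ D, n • x = 0) : D = ⊥ := by
  rw [eq_bot_iff]
  intro x hx
  obtain ⟨y, hy, h1⟩ := hD n.natAbs (Int.natAbs_ne_zero.2 hn) x hx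
  have h2 := h y hy
  rw [AddSubgroup.mem_bot, ← h1]
  rcases Int.natAbs_eq n with h3 | h3
  · rw [h3, natCast_zsmul] at h2
    exact h2
  · rw [h3, neg_smul, natCast_zsmul, neg_eq_zero] at h2
    exact h2

include hs hN in
theorem noDiv_ker (hG : ∀ g : G, g ≠ 1 → (orderOf g).Prime) (hc : ¬ IsCyclic G)
    (h : ∀ H : Subgroup G, H ≠ ⊥ → NoDiv (Sm S (H.comap π))) : NoDiv (Sm S π.ker) := by
  intro D hD
  have hn0 : (Nat.card G : ℤ) * (((prs G).card : ℤ) - 1) ≠ 0 :=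
    mul_ne_zero (by exact_mod_cast Nat.card_pos.ne') (card_prs hG hc)
  refine arith4 hn0 hD fun x hx => ?_
  refine kill S π s hs hN hG hc x fun H hH => ?_
  have h1 := h H hH (D.map (crc S π s hs hN H)) (by
    rintro n hn _ ⟨y, hy, rfl⟩
    obtain ⟨z, hz, h2⟩ := hD n hn y hy
    exact ⟨_, ⟨z, hz, rfl⟩, by rw [← map_nsmul, h2]⟩)
  have h2 : crc S π s hs hN H x ∈ D.map (crc S π s hs hN H) := ⟨x, hx, rfl⟩
  rw [h1] at h2
  exact AddSubgroup.mem_bot.1 h2

end main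

end Pool.Agent.R333.Sel
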