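import Pool.Agent.R333.Sel.Lin
import Pool.Agent.R333.BR.Pts

/-! The Selmer data of an elliptic curve. -/

set_option autoImplicit false

namespace Pool.Agent.R333.Sel

open scoped Classical

open Module Representation TensorProduct WeierstrassCurve WeierstrassCurve.Affine
open Pool.Agent.R433.MD (fx)
open Pool.Agent.R333.BR

variable {K Ω : Type} [Field K] [Field Ω] [Algebra K Ω]

/-- the stabilizer of an absolute value -/
def stab (K : Type) {Ω : Type} [Field K] [Field Ω] [Algebra K Ω] (v : AbsoluteValue Ω ℝ) :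
    Subgroup Gal(Ω/K) where
  carrier := {σ | ∀ x, v (σ x) = v x}
  mul_mem' := by
    intro a b ha hb x
    rw [AlgEquiv.mul_apply, ha, hb]
  one_mem' := fun x => rfl
  inv_mem' := by
    intro a ha x
    have h := ha (a⁻¹ x)
    rw [← h, ← AlgEquiv.mul_apply, mul_inv_cancel]
    rfl

theorem mem_stab {v : AbsoluteValue Ω ℝ} {σ : Gal(Ω/K)} : σ ∈ stab K v ↔ ∀ x, v (σ x) = v x :=
  Iff.rfl

theorem exists_fin [IsAlgClosure K Ω] (M : IntermediateField K Ω) [FiniteDimensional K M] :
    ∃ M' : IntermediateField K Ω, FiniteDimensional K M' ∧ Normal K M' ∧ M ≤ M' := by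
  have : Algebra.IsAlgebraic K Ω := IsAlgClosure.isAlgebraic
  have : Normal K Ω := inferInstance
  exact ⟨IntermediateField.normalClosure K M Ω, inferInstance, inferInstance, M.le_normalClosure⟩

/-- the data -/
noncomputable def dat (p : ℕ) (E : WeierstrassCurve K) (Ω : Type) [Field Ω] [Algebra K Ω]
    [IsAlgClosure K Ω] : Dat Gal(Ω/K) (Pt E Ω) where
  act := actPt E
  T :=
    { carrier := {P | ∃ n : ℕ, p ^ n • P = 0}
      add_mem' := by
        rintro a b ⟨m, hm⟩ ⟨n, hn⟩
        refine ⟨m + n, ?_⟩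
        rw [smul_add, pow_add, mul_smul (p ^ m) (p ^ n) b, hn, smul_zero, mul_comm (p ^ m), mul_smul,
          hm, smul_zero, add_zero]
      zero_mem' := ⟨0, smul_zero _⟩
      neg_mem' := by
        rintro a ⟨m, hm⟩
        exact ⟨m, by rw [smul_neg, hm, neg_zero]⟩ }
  hT := by
    rintro σ x ⟨n, hn⟩
    refine ⟨n, ?_⟩
    rw [← map_nsmul, hn, map_zero]
  U := {u | ∃ M : IntermediateField K Ω, FiniteDimensional K M ∧ Normal K M ∧ u = M.fixingSubgroup}
  hU := by
    rintro _ ⟨M, -, hM, rfl⟩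
    rw [← IntermediateField.restrictNormalHom_ker]
    infer_instance
  hUi := by
    rintro _ ⟨M, hM1, hM2, rfl⟩ _ ⟨M', hM1', hM2', rfl⟩
    exact ⟨M ⊔ M', inferInstance, inferInstance, IntermediateField.fixingSubgroup_sup.symm⟩
  hTU := by
    have : Algebra.IsAlgebraic K Ω := IsAlgClosure.isAlgebraic
    rintro P -
    have hfix : ∀ x : Ω, ∃ M : IntermediateField K Ω, FiniteDimensional K M ∧ x ∈ M := fun x =>
      ⟨IntermediateField.adjoin K {x}, IntermediateField.adjoin.finiteDimensional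
        (Algebra.IsIntegral.isIntegral x), IntermediateField.mem_adjoin_simple_self K x⟩
    rcases P with _ | ⟨x, y, hxy⟩
    · obtain ⟨M, hM, -⟩ := hfix 0
      obtain ⟨M', h1, h2, -⟩ := exists_fin M
      exact ⟨_, ⟨M', h1, h2, rfl⟩, fun σ _ => rfl⟩
    · obtain ⟨M1, hM1, hx⟩ := hfix x
      obtain ⟨M2, hM2, hy⟩ := hfix y
      obtain ⟨M', h1, h2, h3⟩ := exists_fin (M1 ⊔ M2)
      refine ⟨_, ⟨M', h1, h2, rfl⟩, fun σ hσ => ?_⟩
      have hσx : σ x = x := hσ ⟨x, h3 (le_sup_left (a := M1) (b := M2) hx)⟩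
      have hσy : σ y = y := hσ ⟨y, h3 (le_sup_right (a := M1) (b := M2) hy)⟩
      obtain ⟨h', h4⟩ := mp_some E (σ : Ω →ₐ[K] Ω) hxy
      rw [actPt_apply, h4]
      have e1 : (σ : Ω →ₐ[K] Ω) x = x := hσx
      have e2 : (σ : Ω →ₐ[K] Ω) y = y := hσy
      simp only [e1, e2]
  D := {d | ∃ v : AbsoluteValue Ω ℝ, v.IsNontrivial ∧ d = stab K v}
  hD := by
    rintro _ ⟨v, hv, rfl⟩ σ
    have hinj : Function.Injective ((σ⁻¹ : Gal(Ω/K)) : Ω →+* Ω) := RingHom.injective _
    refine ⟨v.comp hinj, ?_, ?_⟩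
    · obtain ⟨x, hx0, hx⟩ := hv
      refine ⟨σ x, ?_, ?_⟩
      · rw [ne_eq, map_eq_zero]
        exact hx0
      · change v (σ⁻¹ (σ x)) ≠ 1
        rw [← AlgEquiv.mul_apply, inv_mul_cancel]
        exact hx
    · ext τ
      have h1 : τ ∈ (stab K v).map (MulAut.conj σ).toMonoidHom ↔ σ⁻¹ * τ * σ ∈ stab K v := by
        constructor
        · rintro ⟨ρ, hρ, rfl⟩
          have : σ⁻¹ * ((MulAut.conj σ).toMonoidHom ρ) * σ = ρ := by
            change σ⁻¹ * (σ * ρ * σ⁻¹) * σ = ρ
            group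
          rw [this]
          exact hρ
        · intro h
          refine ⟨_, h, ?_⟩
          change σ * (σ⁻¹ * τ * σ) * σ⁻¹ = τ
          group
      rw [h1, mem_stab, mem_stab]
      constructor
      · intro h x
        have h2 := h (σ⁻¹ x)
        change v (σ⁻¹ (τ x)) = v (σ⁻¹ x)
        have e : (σ⁻¹ * τ * σ) (σ⁻¹ x) = σ⁻¹ (τ x) := by
          rw [← AlgEquiv.mul_apply, mul_assoc, mul_inv_cancel, mul_one, AlgEquiv.mul_apply]
        rw [← e, h2]
      · intro h x
        have h2 := h (σ x)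
        change v (σ⁻¹ (τ (σ x))) = v (σ⁻¹ (σ x)) at h2
        rw [AlgEquiv.mul_apply, AlgEquiv.mul_apply, h2, ← AlgEquiv.mul_apply, inv_mul_cancel]
        rfl

theorem fix_lift (L : IntermediateField K Ω) [Normal K L] (M : IntermediateField K L) :
    (IntermediateField.lift M).fixingSubgroup =
      M.fixingSubgroup.comap (AlgEquiv.restrictNormalHom L) := by
  ext σ
  rw [IntermediateField.mem_fixingSubgroup_iff, Subgroup.mem_comap,
    IntermediateField.mem_fixingSubgroup_iff]
  constructor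
  · intro h x hx
    refine Subtype.ext ?_
    rw [AlgEquiv.restrictNormalHom_apply]
    exact h x ((IntermediateField.mem_lift x).2 hx)
  · intro h x hx
    have h1 := h ⟨x, IntermediateField.lift_le M hx⟩ ((IntermediateField.mem_lift _).1 hx)
    have h2 := AlgEquiv.restrictNormalHom_apply L σ ⟨x, IntermediateField.lift_le M hx⟩
    rw [h1] at h2
    exact h2.symm

theorem fix_L (L : IntermediateField K Ω) [Normal K L] :
    L.fixingSubgroup = (AlgEquiv.restrictNormalHom (F := K) (K₁ := Ω) L).ker :=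
  (IntermediateField.restrictNormalHom_ker L).symm

/-- `Gal(L/M) → Gal(L/K)` -/
noncomputable def jj {L : Type} [Field L] [Algebra K L] (M : IntermediateField K L) :
    Gal(L/M) →* Gal(L/K) :=
  M.fixingSubgroup.subtype.comp (IntermediateField.fixingSubgroupEquiv M).symm.toMonoidHom

theorem jj_inj {L : Type} [Field L] [Algebra K L] (M : IntermediateField K L) :
    Function.Injective (jj M) :=
  (Subtype.val_injective).comp (IntermediateField.fixingSubgroupEquiv M).symm.injective

theorem jj_range {L : Type} [Field L] [Algebra K L] (M : IntermediateField K L) :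
    (jj M).range = M.fixingSubgroup := by
  ext σ
  constructor
  · rintro ⟨τ, rfl⟩
    exact ((IntermediateField.fixingSubgroupEquiv M).symm τ).2
  · intro h
    refine ⟨IntermediateField.fixingSubgroupEquiv M ⟨σ, h⟩, ?_⟩
    change (((IntermediateField.fixingSubgroupEquiv M).symm
      (IntermediateField.fixingSubgroupEquiv M ⟨σ, h⟩) : M.fixingSubgroup) : Gal(L/K)) = σ
    rw [MulEquiv.symm_apply_apply]

theorem jj_apply {L : Type} [Field L] [Algebra K L] (M : IntermediateField K L) (τ : Gal(L/M))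
    (x : L) : jj M τ x = τ x := rfl

theorem jj_map {L : Type} [Field L] [Algebra K L] (M : IntermediateField K L)
    (F : IntermediateField M L) :
    F.fixingSubgroup.map (jj M) = (F.restrictScalars K).fixingSubgroup := by
  ext σ
  rw [IntermediateField.mem_fixingSubgroup_iff]
  constructor
  · rintro ⟨τ, hτ, rfl⟩ x hx
    rw [jj_apply]
    exact (IntermediateField.mem_fixingSubgroup_iff _ _).1 hτ x hx
  · intro h
    have h1 : σ ∈ (jj M).range := by
      rw [jj_range, IntermediateField.mem_fixingSubgroup_iff]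
      intro x hx
      refine h x ?_
      exact F.algebraMap_mem ⟨x, hx⟩
    obtain ⟨τ, rfl⟩ := h1
    refine ⟨τ, ?_, rfl⟩
    refine (IntermediateField.mem_fixingSubgroup_iff _ _).2 fun x hx => ?_
    exact h x hx

/-- **relations between Selmer ranks** -/
theorem sel_rel (p : ℕ) (E : WeierstrassCurve K) [IsAlgClosure K Ω] (L : IntermediateField K Ω)
    [FiniteDimensional K L] [Normal K L]
    (R W k : Type) [CommRing R] [AddCommGroup W] [Module R W] [Field k] [CharZero k]
    [Algebra R k] (M : IntermediateField K L) {ι : Type} [Fintype ι] [Nonempty ι]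
    (F : ι → IntermediateField M L) (e : ι → ℤ) (m : ℤ)
    (h : ∀ g : Gal(L/M), ∑ i, e i * fx (F i).fixingSubgroup g = m) (r : ι → ℕ)
    (hr : ∀ i, Module.rank k (V (dat p E Ω) R W k
      (IntermediateField.lift ((F i).restrictScalars K)).fixingSubgroup) = r i) :
    ∃ r0 : ℕ, Module.rank k (V (dat p E Ω) R W k (IntermediateField.lift M).fixingSubgroup) = r0 ∧
      m * (r0 : ℤ) = ∑ i, e i * (r i : ℤ) := by
  have : Algebra.IsAlgebraic K Ω := IsAlgClosure.isAlgebraic
  have : Normal K Ω := inferInstance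
  have hsurj : Function.Surjective (AlgEquiv.restrictNormalHom L : Gal(Ω/K) → Gal(L/K)) :=
    AlgEquiv.restrictNormalHom_surjective Ω
  choose s hs using hsurj
  have hN : (AlgEquiv.restrictNormalHom (F := K) (K₁ := Ω) L).ker ∈ (dat p E Ω).U :=
    ⟨L, inferInstance, inferInstance, (fix_L L).symm⟩
  obtain ⟨r0, h1, h2⟩ := rel_V (dat p E Ω) (AlgEquiv.restrictNormalHom L) s hs R W k hN (jj M)
    (jj_inj M) (fun i => (F i).fixingSubgroup) e m h r (fun i => by
      rw [jj_map, ← fix_lift]
      exact hr i)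
  refine ⟨r0, ?_, h2⟩
  rw [← h1, jj_range, ← fix_lift]

end Pool.Agent.R333.Sel
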