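import Pool.Agent.R333.Sel.Tow

/-! Divisible subgroups and involutions. -/

set_option autoImplicit false

namespace Pool.Agent.R333.Sel

open scoped Classical

/-- no nonzero homomorphism from `ℚ` -/
def NoRat (S : Type) [AddCommGroup S] : Prop := ∀ f : ℚ →+ S, f = 0

theorem noRat_congr {S S' : Type} [AddCommGroup S] [AddCommGroup S'] (e : S ≃+ S') (h : NoRat S) :
    NoRat S' := by
  intro f
  have h1 := h (e.symm.toAddMonoidHom.comp f)
  refine AddMonoidHom.ext fun q => ?_
  have h2 := DFunLike.congr_fun h1 q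
  have h3 : e.symm (f q) = 0 := h2
  change f q = 0
  rw [← e.apply_symm_apply (f q), h3, map_zero]

/-- cancellation of integers -/
theorem cancel {S : Type} [AddCommGroup S] (F : ℚ →+ S) (n : ℤ) (hn : n ≠ 0)
    (h : ∀ q, n • F q = 0) (q : ℚ) : F q = 0 := by
  have h1 := h (q / n)
  rw [← map_zsmul] at h1
  have h2 : n • (q / n) = q := by
    rw [zsmul_eq_mul]
    have : (n : ℚ) ≠ 0 := by exact_mod_cast hn
    field_simp
  rwa [h2] at h1

section main
variable {Γ M : Type} [Group Γ] [AddCommGroup M] (S : Dat Γ M)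
variable {G : Type} [Group G] [Finite G] (π : Γ →* G) (s : G → Γ) (hs : ∀ g, π (s g) = g)
  (hN : π.ker ∈ S.U)

include hs in
theorem ag_mul (g h : G) : ac S π (s (g * h)) = (ac S π (s g)).comp (ac S π (s h)) := by
  have h1 : s (g * h) * (s g * s h)⁻¹ ∈ π.ker := by
    rw [MonoidHom.mem_ker, map_mul, map_inv, map_mul, hs, hs, hs, mul_inv_cancel]
  have h2 : s (g * h) = (s (g * h) * (s g * s h)⁻¹) * (s g * s h) := by group
  rw [h2, ac_mul, ac_ker S π _ h1, AddMonoidHom.id_comp, ac_mul]

include hs in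
theorem ag_one : ac S π (s 1) = AddMonoidHom.id _ :=
  ac_ker S π (s 1) (by rw [MonoidHom.mem_ker, hs])

include hs hN in
/-- the norm vanishes -/
theorem norm_zero (H : Subgroup G) (h : NoRat (Sm S (H.comap π))) (f : ℚ →+ Sm S π.ker) (q : ℚ) :
    let _ : Fintype G := Fintype.ofFinite G
    ∑ g : G, (if g ∈ H then ac S π (s g) (f q) else 0) = 0 := by
  intro _
  have h1 : (crc S π s hs hN H).comp f = 0 := h _
  let F : ℚ →+ Sm S π.ker :=
    ∑ g : G, (if g ∈ H then (ac S π (s g)).comp f else 0)
  have hF : ∀ q, F q = ∑ g : G, (if g ∈ H then ac S π (s g) (f q) else 0) := by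
    intro q
    change (∑ g : G, (if g ∈ H then (ac S π (s g)).comp f else 0)) q = _
    rw [AddMonoidHom.finsetSum_apply]
    refine Finset.sum_congr rfl fun g _ => ?_
    split_ifs <;> rfl
  have h2 : ∀ q, (Nat.card G : ℤ) • F q = 0 := by
    intro q
    rw [hF]
    exact crc_norm S π s hs hN H (f q) (DFunLike.congr_fun h1 q)
  rw [← hF]
  exact cancel F _ (by exact_mod_cast Nat.card_pos.ne') h2 q

/-- the subgroup generated by the products of two conjugates of `τ` -/
def evenSub (τ : G) : Subgroup G :=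
  Subgroup.closure {t : G | ∃ g h : G, t = (g * τ * g⁻¹) * (h * τ * h⁻¹)}

theorem sum_zpowers [Fintype G] {N : Type} [AddCommGroup N] (φ : G → N) {τ : G} (h1 : τ * τ = 1)
    (h2 : τ ≠ 1) :
    ∑ g : G, (if g ∈ Subgroup.zpowers τ then φ g else 0) = φ 1 + φ τ := by
  have h3 : Finset.univ.filter (fun g : G => g ∈ Subgroup.zpowers τ) = {1, τ} := by
    ext g
    rw [Finset.mem_filter, Finset.mem_insert, Finset.mem_singleton]
    constructor
    · rintro ⟨-, k, rfl⟩
      have h4 : τ ^ (2 : ℤ) = 1 := by rw [zpow_two, h1]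
      change τ ^ k = 1 ∨ τ ^ k = τ
      rcases Int.even_or_odd' k with ⟨m, rfl | rfl⟩
      · left
        rw [zpow_mul, h4, one_zpow]
      · right
        rw [zpow_add, zpow_mul, h4, one_zpow, zpow_one, one_mul]
    · rintro (rfl | rfl)
      · exact ⟨Finset.mem_univ _, Subgroup.one_mem _⟩
      · exact ⟨Finset.mem_univ _, Subgroup.mem_zpowers _⟩
  rw [← Finset.sum_filter, h3, Finset.sum_pair h2.symm]

include hs hN in
/-- **involutions** -/
theorem noRat_inv {τ : G} (hτ : τ * τ = 1) (h1 : NoRat (Sm S ((Subgroup.zpowers τ).comap π)))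
    (h2 : NoRat (Sm S ((evenSub τ).comap π))) : NoRat (Sm S π.ker) := by
  let _ : Fintype G := Fintype.ofFinite G
  by_cases hτ1 : τ = 1
  · have e : (Subgroup.zpowers τ).comap π = π.ker := by
      rw [hτ1, Subgroup.zpowers_one_eq_bot]
      rfl
    rw [e] at h1
    exact h1
  have hneg : ∀ (f : ℚ →+ Sm S π.ker) (q : ℚ), ac S π (s τ) (f q) = - f q := by
    intro f q
    have h3 := norm_zero S π s hs hN (Subgroup.zpowers τ) h1 f q
    have h4 : ∑ g : G, (if g ∈ Subgroup.zpowers τ then ac S π (s g) (f q) else 0) = 0 := h3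
    rw [sum_zpowers (fun g => ac S π (s g) (f q)) hτ hτ1, ag_one S π s hs] at h4
    exact (neg_eq_of_add_eq_zero_right h4).symm
  have hconj : ∀ (g : G) (f : ℚ →+ Sm S π.ker) (q : ℚ),
      ac S π (s (g * τ * g⁻¹)) (f q) = - f q := by
    intro g f q
    have h3 := hneg ((ac S π (s g⁻¹)).comp f) q
    rw [ag_mul S π s hs, ag_mul S π s hs]
    change ac S π (s g) (ac S π (s τ) (ac S π (s g⁻¹) (f q))) = _
    have h4 : ac S π (s τ) (ac S π (s g⁻¹) (f q)) = - ac S π (s g⁻¹) (f q) := h3
    rw [h4, map_neg]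
    have h5 : ac S π (s g) (ac S π (s g⁻¹) (f q)) = f q := by
      have h6 := ag_mul S π s hs g g⁻¹
      rw [mul_inv_cancel, ag_one S π s hs] at h6
      exact (DFunLike.congr_fun h6 (f q)).symm
    rw [h5]
  have hfix : ∀ t ∈ evenSub τ, ∀ (f : ℚ →+ Sm S π.ker) (q : ℚ), ac S π (s t) (f q) = f q := by
    intro t ht
    unfold evenSub at ht
    induction ht using Subgroup.closure_induction with
    | mem t ht =>
      obtain ⟨g, h, rfl⟩ := ht
      intro f q
      rw [ag_mul S π s hs]
      change ac S π (s (g * τ * g⁻¹)) (ac S π (s (h * τ * h⁻¹)) (f q)) = f q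
      rw [hconj h f q, map_neg, hconj g f q, neg_neg]
    | one =>
      intro f q
      rw [ag_one S π s hs]
      rfl
    | mul a b _ _ ha hb =>
      intro f q
      rw [ag_mul S π s hs]
      change ac S π (s a) (ac S π (s b) (f q)) = f q
      rw [hb, ha]
    | inv a _ ha =>
      intro f q
      have h6 := ag_mul S π s hs a⁻¹ a
      rw [inv_mul_cancel, ag_one S π s hs] at h6
      have h7 : f q = ac S π (s a⁻¹) (ac S π (s a) (f q)) := DFunLike.congr_fun h6 (f q)
      rw [ha] at h7
      exact h7.symm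
  intro f
  have hz : ∀ q, f q = 0 := by
    intro q
    refine cancel f (Nat.card (evenSub τ)) (by exact_mod_cast Nat.card_pos.ne') (fun q => ?_) q
    have h3 := norm_zero S π s hs hN (evenSub τ) h2 f q
    have h4 : ∑ g : G, (if g ∈ evenSub τ then ac S π (s g) (f q) else 0) = 0 := h3
    have h5 : ∀ g : G, (if g ∈ evenSub τ then ac S π (s g) (f q) else 0) =
        if g ∈ evenSub τ then f q else 0 := by
      intro g
      by_cases hg : g ∈ evenSub τ
      · rw [if_pos hg, if_pos hg, hfix g hg f q]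
      · rw [if_neg hg, if_neg hg]
    rw [Finset.sum_congr rfl fun g _ => h5 g, ← Finset.sum_filter, Finset.sum_const] at h4
    have h6 : (Finset.univ.filter fun g : G => g ∈ evenSub τ).card = Nat.card (evenSub τ) := by
      rw [Nat.card_eq_fintype_card, Fintype.card_subtype]
    rw [h6] at h4
    rw [natCast_zsmul]
    exact h4
  exact AddMonoidHom.ext hz

include hs hN in
/-- the subfields -/
theorem noRat_sub (H : Subgroup G) (h : NoRat (Sm S π.ker)) : NoRat (Sm S (H.comap π)) := by
  intro f
  let _ : Fintype H := Fintype.ofFinite H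
  have h1 : (rs S π H).comp f = 0 := h _
  have hz : ∀ q, f q = 0 := by
    intro q
    refine cancel f ((Fintype.card H * Fintype.card H : ℕ) : ℤ) (by
      have : Fintype.card H ≠ 0 := Fintype.card_ne_zero
      exact_mod_cast mul_ne_zero this this) (fun q => ?_) q
    have h2 := DFunLike.congr_fun (cr_rs S π s hs H hN) (f q)
    have h3 : cr S π s hs H hN (rs S π H (f q)) =
      (Fintype.card H * Fintype.card H) • f q := h2
    have h4 : rs S π H (f q) = 0 := DFunLike.congr_fun h1 q
    rw [h4, map_zero] at h3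
    rw [natCast_zsmul]
    exact h3.symm
  exact AddMonoidHom.ext hz

end main

end Pool.Agent.R333.Sel
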