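import Pool.Agent.R333.Sel.Coc
import Pool.Agent.R333.Sel.Rel

/-! The duals of the Selmer groups, with scalars extended: Galois descent. -/

set_option autoImplicit false

namespace Pool.Agent.R333.Sel

open Module Representation TensorProduct
open Pool.Agent.R433.MD (fx)

section pre
variable (R W : Type) [CommRing R] [AddCommGroup W] [Module R W]
variable {A A' A'' : Type} [AddCommGroup A] [AddCommGroup A'] [AddCommGroup A'']

/-- composition with `f` -/
def pre (f : A →+ A') : (A' →+ W) →ₗ[R] (A →+ W) where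
  toFun φ := φ.comp f
  map_add' _ _ := rfl
  map_smul' _ _ := rfl

theorem pre_comp (g : A' →+ A'') (f : A →+ A') : pre R W (g.comp f) = pre R W f ∘ₗ pre R W g := rfl

theorem pre_id : pre R W (AddMonoidHom.id A) = LinearMap.id := rfl

theorem pre_sum {ι : Type} (s : Finset ι) (f : ι → (A →+ A')) :
    pre R W (∑ i ∈ s, f i) = ∑ i ∈ s, pre R W (f i) := by
  ext φ a
  rw [LinearMap.sum_apply]
  change φ ((∑ i ∈ s, f i) a) = (∑ i ∈ s, (pre R W (f i)) φ) a
  rw [AddMonoidHom.finsetSum_apply, map_sum, AddMonoidHom.finsetSum_apply]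
  rfl

theorem pre_nsmul (n : ℕ) (f : A →+ A') : pre R W (n • f) = n • pre R W f := by
  ext φ a
  change φ (n • f a) = n • φ (f a)
  rw [map_nsmul]

variable (k : Type) [Field k] [Algebra R k]

/-- extension of scalars -/
noncomputable def pk (f : A →+ A') : (k ⊗[R] (A' →+ W)) →ₗ[k] (k ⊗[R] (A →+ W)) :=
  (pre R W f).baseChange k

theorem pk_comp (g : A' →+ A'') (f : A →+ A') : pk R W k (g.comp f) = pk R W k f ∘ₗ pk R W k g := by
  unfold pk
  rw [pre_comp, LinearMap.baseChange_comp]

theorem pk_id : pk R W k (AddMonoidHom.id A) = LinearMap.id := by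
  unfold pk
  rw [pre_id, LinearMap.baseChange_id]

theorem pk_sum {ι : Type} (s : Finset ι) (f : ι → (A →+ A')) :
    pk R W k (∑ i ∈ s, f i) = ∑ i ∈ s, pk R W k (f i) := by
  classical
  unfold pk
  rw [pre_sum]
  induction s using Finset.induction_on with
  | empty => rw [Finset.sum_empty, Finset.sum_empty, LinearMap.baseChange_zero]
  | insert i s hi ih => rw [Finset.sum_insert hi, Finset.sum_insert hi, LinearMap.baseChange_add, ih]

theorem pk_nsmul (n : ℕ) (f : A →+ A') : pk R W k (n • f) = n • pk R W k f := by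
  have h1 : n • f = ∑ _i ∈ Finset.range n, f := by
    rw [Finset.sum_const, Finset.card_range]
  rw [h1, pk_sum, Finset.sum_const, Finset.card_range]

end pre

section main
variable {Γ M : Type} [Group Γ] [AddCommGroup M] (S : Dat Γ M)
variable {G : Type} [Group G] (π : Γ →* G) (s : G → Γ) (hs : ∀ g, π (s g) = g)
variable (R W k : Type) [CommRing R] [AddCommGroup W] [Module R W] [Field k] [CharZero k]
  [Algebra R k]

/-- the rational dual of the Selmer group -/
abbrev V (Δ : Subgroup Γ) : Type := k ⊗[R] (Sm S Δ →+ W)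

/-- the action of `Γ` on the Selmer group of the kernel -/
noncomputable def ac (g : Γ) : Sm S π.ker →+ Sm S π.ker :=
  lf (cj S g) (fun c hc => cj_Z S g c hc) (fun c hc => cj_B S g c hc)

theorem ac_one : ac S π 1 = AddMonoidHom.id _ := by
  refine QuotientAddGroup.addMonoidHom_ext _ ?_
  ext c
  change ac S π 1 (c : Sm S π.ker) = c
  unfold ac
  rw [lf_mk]
  congr 1
  exact Subtype.ext (cj_one S _)

theorem ac_mul (g h : Γ) : ac S π (g * h) = (ac S π g).comp (ac S π h) := by
  refine QuotientAddGroup.addMonoidHom_ext _ ?_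
  ext c
  change ac S π (g * h) (c : Sm S π.ker) = ac S π g (ac S π h c)
  unfold ac
  rw [lf_mk, lf_mk, lf_mk]
  congr 1
  exact Subtype.ext (cj_mul S g h _)

theorem ac_ker (g : Γ) (hg : g ∈ π.ker) : ac S π g = AddMonoidHom.id _ := by
  refine QuotientAddGroup.addMonoidHom_ext _ ?_
  ext c
  change ac S π g (c : Sm S π.ker) = c
  unfold ac
  rw [lf_mk]
  refine (mk_eq _ _ ?_).symm
  exact cj_triv S g hg c c.2

/-- the representation of `G` -/
noncomputable def rp : Representation k G (V S R W k π.ker) where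
  toFun g := pk R W k (ac S π (s g)⁻¹)
  map_one' := by
    have h1 : (s 1)⁻¹ ∈ π.ker := by
      rw [MonoidHom.mem_ker, map_inv, hs, inv_one]
    rw [ac_ker S π _ h1, pk_id]
    rfl
  map_mul' g h := by
    have h1 : (s (g * h))⁻¹ * (s g * s h) ∈ π.ker := by
      rw [MonoidHom.mem_ker, map_mul, map_mul, map_inv, hs, hs, hs, inv_mul_cancel]
    have h2 : (s (g * h))⁻¹ = ((s (g * h))⁻¹ * (s g * s h)) * ((s h)⁻¹ * (s g)⁻¹) := by group
    rw [h2, ac_mul, ac_ker S π _ h1, AddMonoidHom.id_comp, ac_mul, pk_comp]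
    rfl

theorem rp_apply (g : G) : rp S π s hs R W k g = pk R W k (ac S π (s g)⁻¹) := rfl

theorem rp_inv (g : G) : rp S π s hs R W k g⁻¹ = pk R W k (ac S π (s g)) := by
  have h1 : (s g⁻¹)⁻¹ * (s g)⁻¹ ∈ π.ker := by
    rw [MonoidHom.mem_ker, map_mul, map_inv, map_inv, hs, hs, inv_inv, mul_inv_cancel]
  have h2 : (s g⁻¹)⁻¹ = ((s g⁻¹)⁻¹ * (s g)⁻¹) * s g := by group
  rw [rp_apply, h2, ac_mul, ac_ker S π _ h1, AddMonoidHom.id_comp]

variable (H : Subgroup G) [Fintype H] (hN : π.ker ∈ S.U)

theorem ker_le : π.ker ≤ H.comap π := by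
  intro x hx
  change π x ∈ H
  rw [MonoidHom.mem_ker.1 hx]
  exact H.one_mem

/-- restriction -/
noncomputable def rs : Sm S (H.comap π) →+ Sm S π.ker :=
  lf (AddMonoidHom.id _) (fun _ hc => Z_mono S (ker_le π H) hc) (fun _ hc => B_mono S (ker_le π H) hc)

/-- corestriction -/
noncomputable def cr : Sm S π.ker →+ Sm S (H.comap π) :=
  lf (Fintype.card H • cor S π s H) (fun c hc => cor_Z S π s H hs hN c hc)
    (fun c hc => AddSubgroup.nsmul_mem _ (cor_B S π s H hs c hc) _)

theorem rs_cr : (rs S π H).comp (cr S π s hs H hN) = Fintype.card H • ∑ h : H, ac S π (s h) := by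
  refine QuotientAddGroup.addMonoidHom_ext _ ?_
  ext c
  change rs S π H (cr S π s hs H hN (c : Sm S π.ker)) =
    (Fintype.card H • ∑ h : H, ac S π (s h)) (c : Sm S π.ker)
  rw [AddMonoidHom.nsmul_apply, AddMonoidHom.finsetSum_apply]
  unfold rs cr
  rw [lf_mk, lf_mk]
  have h1 : ∀ h : H, ac S π (s h) (c : Sm S π.ker) =
      ((⟨cj S (s h) c, cj_Z S (s h) c c.2⟩ : Z S π.ker) : Sm S π.ker) := fun h => rfl
  rw [Finset.sum_congr rfl fun h _ => h1 h]
  have h2 : (Fintype.card H • ∑ h : H,
      (((⟨cj S (s h) c, cj_Z S (s h) c c.2⟩ : Z S π.ker)) : Sm S π.ker)) =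
      (((Fintype.card H • ∑ h : H, (⟨cj S (s h) c, cj_Z S (s h) c c.2⟩ : Z S π.ker) :
        Z S π.ker)) : Sm S π.ker) := by
    rw [QuotientAddGroup.mk_nsmul]
    congr 1
    exact (map_sum (QuotientAddGroup.mk' ((B S π.ker).addSubgroupOf (Z S π.ker))) _ _).symm
  rw [h2]
  refine mk_eq _ _ ?_
  refine ⟨0, S.T.zero_mem, fun σ hσ => ?_⟩
  rw [map_zero, sub_zero]
  change ((Fintype.card H • ∑ h : H, (⟨cj S (s h) c, cj_Z S (s h) c c.2⟩ : Z S π.ker) :
    Z S π.ker) : Γ → M) σ - (Fintype.card H • cor S π s H c σ) = 0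
  rw [cor_res S π s H c hσ, AddSubgroup.coe_nsmul, AddSubgroup.val_finsetSum, Pi.smul_apply,
    sub_self]

theorem cr_rs : (cr S π s hs H hN).comp (rs S π H) =
    (Fintype.card H * Fintype.card H) • AddMonoidHom.id _ := by
  refine QuotientAddGroup.addMonoidHom_ext _ ?_
  ext c
  change cr S π s hs H hN (rs S π H (c : Sm S (H.comap π))) =
    (Fintype.card H * Fintype.card H) • (c : Sm S (H.comap π))
  unfold rs cr
  rw [lf_mk, lf_mk, ← QuotientAddGroup.mk_nsmul]
  refine (mk_eq _ _ ?_).symm
  have h1 := AddSubgroup.nsmul_mem _ (res_cor S π s H hs c c.2) (Fintype.card H)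
  rw [smul_sub, ← mul_smul] at h1
  exact h1

include hN in
/-- **descent** -/
theorem rank_V : Module.rank k (V S R W k (H.comap π)) =
    Module.rank k (invariants ((rp S π s hs R W k).comp H.subtype)) := by
  set a := pk R W k (cr S π s hs H hN) with ha
  set b := pk R W k (rs S π H) with hb
  have hcard : ((Fintype.card H : ℕ) : k) ≠ 0 := by exact_mod_cast Fintype.card_ne_zero
  have hba : b ∘ₗ a = (Fintype.card H * Fintype.card H) • LinearMap.id := by
    rw [ha, hb, ← pk_comp, cr_rs, pk_nsmul, pk_id]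
  have hab : a ∘ₗ b = Fintype.card H • ∑ h : H, rp S π s hs R W k (h : G) := by
    rw [ha, hb, ← pk_comp, rs_cr, pk_nsmul, pk_sum]
    congr 1
    rw [← Equiv.sum_comp (Equiv.inv H) (fun h : H => rp S π s hs R W k (h : G))]
    refine Finset.sum_congr rfl fun h _ => ?_
    exact (rp_inv S π s hs R W k (h : G)).symm
  have hba' : ∀ x, b (a x) = (Fintype.card H * Fintype.card H) • x := fun x =>
    LinearMap.congr_fun hba x
  have hab' : ∀ x, a (b x) = Fintype.card H • ∑ h : H, rp S π s hs R W k (h : G) x := fun x => by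
    have := LinearMap.congr_fun hab x
    rw [LinearMap.comp_apply, LinearMap.smul_apply, LinearMap.sum_apply] at this
    exact this
  have hinj : Function.Injective a := by
    intro x y hxy
    have h1 : b (a x) = b (a y) := by rw [hxy]
    rw [hba', hba', ← Nat.cast_smul_eq_nsmul k, ← Nat.cast_smul_eq_nsmul k] at h1
    refine smul_right_injective _ ?_ h1
    rw [Nat.cast_mul]
    exact mul_ne_zero hcard hcard
  have hrange : LinearMap.range a = invariants ((rp S π s hs R W k).comp H.subtype) := by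
    ext x
    rw [mem_invariants]
    constructor
    · rintro ⟨y, rfl⟩ g
      change rp S π s hs R W k (g : G) (a y) = a y
      have h1 : (Fintype.card H * Fintype.card H) • a y = a (b (a y)) := by
        rw [hba', map_nsmul]
      have h2 : rp S π s hs R W k (g : G) (a (b (a y))) = a (b (a y)) := by
        rw [hab', map_nsmul, map_sum,
          ← Equiv.sum_comp (Equiv.mulLeft g) (fun h : H => rp S π s hs R W k (h : G) (a y))]
        congr 1
        refine Finset.sum_congr rfl fun h _ => ?_
        change _ = rp S π s hs R W k ((g * h : H) : G) (a y)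
        rw [Subgroup.coe_mul, map_mul]
        rfl
      rw [← h1, map_nsmul, ← Nat.cast_smul_eq_nsmul k, ← Nat.cast_smul_eq_nsmul k] at h2
      refine smul_right_injective _ ?_ h2
      rw [Nat.cast_mul]
      exact mul_ne_zero hcard hcard
    · intro hx
      have h0 : ∀ h : H, rp S π s hs R W k (h : G) x = x := hx
      have h1 : a (b x) = (Fintype.card H * Fintype.card H) • x := by
        rw [hab', Finset.sum_congr rfl fun h _ => h0 h, Finset.sum_const, Finset.card_univ,
          ← mul_smul]
      refine ⟨((Fintype.card H * Fintype.card H : ℕ) : k)⁻¹ • b x, ?_⟩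
      rw [map_smul, h1, ← Nat.cast_smul_eq_nsmul k, smul_smul, inv_mul_cancel₀, one_smul]
      rw [Nat.cast_mul]
      exact mul_ne_zero hcard hcard
  rw [← hrange]
  exact (LinearEquiv.ofInjective a hinj).rank_eq

include hN hs in
omit [Fintype H] in
/-- **relations** -/
theorem rel_V {G' : Type} [Group G'] [Finite G'] (j : G' →* G) (hj : Function.Injective j)
    {ι : Type} [Fintype ι] [Nonempty ι] (Hi : ι → Subgroup G') (e : ι → ℤ) (m : ℤ)
    (h : ∀ g : G', ∑ i, e i * fx (Hi i) g = m) (r : ι → ℕ)
    (hr : ∀ i, Module.rank k (V S R W k (((Hi i).map j).comap π)) = r i) :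
    ∃ r0 : ℕ, Module.rank k (V S R W k (j.range.comap π)) = r0 ∧
      m * (r0 : ℤ) = ∑ i, e i * (r i : ℤ) := by
  classical
  let _ : Fintype G' := Fintype.ofFinite _
  have key : ∀ H' : Subgroup G', Module.rank k (V S R W k ((H'.map j).comap π)) =
      Module.rank k (invariants (((rp S π s hs R W k).comp j).comp H'.subtype)) := by
    intro H'
    have hf : Finite (H'.map j) := Finite.of_surjective _ (Subgroup.equivMapOfInjective H' j hj).surjective
    let _ : Fintype (H'.map j) := Fintype.ofFinite _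
    rw [rank_V S π s hs R W k (H'.map j) hN]
    have e1 : invariants ((rp S π s hs R W k).comp (H'.map j).subtype) =
        invariants (((rp S π s hs R W k).comp j).comp H'.subtype) := by
      ext x
      rw [mem_invariants, mem_invariants]
      constructor
      · intro h1 g
        exact h1 ⟨j g, ⟨g, g.2, rfl⟩⟩
      · rintro h1 ⟨_, g, hg, rfl⟩
        exact h1 ⟨g, hg⟩
    rw [e1]
  have h1 : ∀ i, Module.rank k (invariants (((rp S π s hs R W k).comp j).comp (Hi i).subtype)) =
      r i := fun i => by rw [← key, hr]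
  have h4 : Module.rank k (V S R W k (j.range.comap π)) =
      Module.rank k (invariants ((rp S π s hs R W k).comp j)) := by
    have h5 := key ⊤
    rw [← MonoidHom.range_eq_map] at h5
    rw [h5]
    have e1 : invariants (((rp S π s hs R W k).comp j).comp (⊤ : Subgroup G').subtype) =
        invariants ((rp S π s hs R W k).comp j) := by
      ext x
      rw [mem_invariants, mem_invariants]
      exact ⟨fun h g => h ⟨g, Subgroup.mem_top g⟩, fun h g => h g⟩
    rw [e1]
  rw [h4]
  exact rel_rank Hi e m ((rp S π s hs R W k).comp j) h r h1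

end main

/-- isomorphic groups -/
theorem rank_congr (R W k : Type) [CommRing R] [AddCommGroup W] [Module R W] [Field k]
    [Algebra R k] {A A' : Type} [AddCommGroup A] [AddCommGroup A'] (e : A ≃+ A') :
    Module.rank k (k ⊗[R] (A →+ W)) = Module.rank k (k ⊗[R] (A' →+ W)) := by
  let f : (k ⊗[R] (A →+ W)) ≃ₗ[k] (k ⊗[R] (A' →+ W)) :=
    LinearEquiv.ofLinearMap (pk R W k e.symm.toAddMonoidHom) (pk R W k e.toAddMonoidHom)
      (by
        rw [← pk_comp]
        have e1 : e.toAddMonoidHom.comp e.symm.toAddMonoidHom = AddMonoidHom.id _ := by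
          ext x
          exact e.apply_symm_apply x
        rw [e1, pk_id])
      (by
        rw [← pk_comp]
        have e1 : e.symm.toAddMonoidHom.comp e.toAddMonoidHom = AddMonoidHom.id _ := by
          ext x
          exact e.symm_apply_apply x
        rw [e1, pk_id])
  exact f.rank_eq

end Pool.Agent.R333.Sel
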