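import Pool.Agent.R333.Sel.Lin

/-! Norm relations for groups partitioned by their subgroups of prime order. -/

set_option autoImplicit false

namespace Pool.Agent.R333.Sel

open scoped Classical

section part
variable {G : Type} [Group G] [Finite G]

/-- the subgroups of prime order -/
noncomputable def prs (G : Type) [Group G] [Finite G] : Finset (Subgroup G) :=
  (Set.toFinite {H : Subgroup G | (Nat.card H).Prime}).toFinset

theorem mem_prs {H : Subgroup G} : H ∈ prs G ↔ (Nat.card H).Prime := by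
  unfold prs
  rw [Set.Finite.mem_toFinset]
  rfl

theorem eq_zpowers {H : Subgroup G} (hH : (Nat.card H).Prime) {g : G} (hg : g ∈ H) (h1 : g ≠ 1) :
    Subgroup.zpowers g = H := by
  have hle : Subgroup.zpowers g ≤ H := by rwa [Subgroup.zpowers_le]
  have hd : Nat.card (Subgroup.zpowers g) ∣ Nat.card H := Subgroup.card_dvd_of_le hle
  rcases (Nat.dvd_prime hH).1 hd with h | h
  · rw [Nat.card_zpowers, orderOf_eq_one_iff] at h
    exact absurd h h1
  · exact Subgroup.eq_of_le_of_card_ge hle h.ge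

variable [Fintype G]

theorem sum_part (hG : ∀ g : G, g ≠ 1 → (orderOf g).Prime) {M : Type} [AddCommGroup M] (f : G → M) :
    ∑ H ∈ prs G, ∑ g : G, (if g ∈ H then f g else 0) =
      ∑ g : G, f g + (((prs G).card : ℤ) - 1) • f 1 := by
  have h1 : ∀ g : G, ∑ H ∈ prs G, (if g ∈ H then f g else 0) =
      f g + (if g = 1 then (((prs G).card : ℤ) - 1) • f 1 else 0) := by
    intro g
    by_cases hg : g = 1
    · rw [if_pos hg, hg]
      have h2 : ∀ H ∈ prs G, (if (1 : G) ∈ H then f 1 else 0) = f 1 := fun H _ => if_pos H.one_mem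
      rw [Finset.sum_congr rfl h2, Finset.sum_const, sub_smul, one_smul, natCast_zsmul]
      abel
    · rw [if_neg hg, add_zero]
      have h2 : Subgroup.zpowers g ∈ prs G := by
        rw [mem_prs, Nat.card_zpowers]
        exact hG g hg
      rw [Finset.sum_eq_single_of_mem _ h2, if_pos (Subgroup.mem_zpowers g)]
      intro H hH hne
      refine if_neg fun hm => hne ?_
      exact (eq_zpowers (mem_prs.1 hH) hm hg).symm
  rw [Finset.sum_comm, Finset.sum_congr rfl fun g _ => h1 g, Finset.sum_add_distrib,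
    Finset.sum_ite_eq' Finset.univ (1 : G), if_pos (Finset.mem_univ _)]

omit [Fintype G] in
theorem card_prs (hG : ∀ g : G, g ≠ 1 → (orderOf g).Prime) (hc : ¬ IsCyclic G) :
    ((prs G).card : ℤ) - 1 ≠ 0 := by
  intro h
  have h1 : (prs G).card = 1 := by omega
  obtain ⟨H, hH⟩ := Finset.card_eq_one.1 h1
  have hHp : (Nat.card H).Prime := mem_prs.1 (by rw [hH]; exact Finset.mem_singleton_self H)
  have hT : H = ⊤ := by
    rw [eq_top_iff]
    intro g _
    by_cases hg : g = 1
    · rw [hg]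
      exact H.one_mem
    · have h2 : Subgroup.zpowers g ∈ prs G := by
        rw [mem_prs, Nat.card_zpowers]
        exact hG g hg
      rw [hH, Finset.mem_singleton] at h2
      rw [← h2]
      exact Subgroup.mem_zpowers g
  rw [hT] at hHp
  have : Fact (Nat.card (⊤ : Subgroup G)).Prime := ⟨hHp⟩
  have h3 : IsCyclic (⊤ : Subgroup G) := isCyclic_of_prime_card (p := Nat.card (⊤ : Subgroup G)) rfl
  exact hc (isCyclic_of_surjective (Subgroup.topEquiv : (⊤ : Subgroup G) ≃* G).toMonoidHom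
    (Subgroup.topEquiv : (⊤ : Subgroup G) ≃* G).surjective)

omit [Fintype G] in
/-- groups of order `q r` -/
theorem prime_orders {q r : ℕ} (hq : q.Prime) (hr : r.Prime) (h : Nat.card G = q * r)
    (hc : ¬ IsCyclic G) (g : G) (hg : g ≠ 1) : (orderOf g).Prime := by
  have h1 : orderOf g ∣ q * r := h ▸ orderOf_dvd_natCard g
  have h2 : orderOf g ≠ q * r := fun h2 => hc (isCyclic_of_orderOf_eq_card g (h2.trans h.symm))
  have h3 : orderOf g ≠ 1 := by
    rw [ne_eq, orderOf_eq_one_iff]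
    exact hg
  obtain ⟨a, b, ha, hb, hab⟩ := (Nat.dvd_mul).1 h1
  rcases (Nat.dvd_prime hq).1 ha with rfl | rfl <;> rcases (Nat.dvd_prime hr).1 hb with rfl | rfl
  · rw [one_mul] at hab
    exact absurd hab.symm h3
  · rw [one_mul] at hab
    rw [← hab]
    exact hr
  · rw [mul_one] at hab
    rw [← hab]
    exact hq
  · exact absurd hab.symm h2

end part

section arith
variable {A : Type} [AddCommGroup A]

theorem arith1 {n m : ℤ} {a b : A} (h7 : n • (a + m • b) = 0) (h6 : n • a = 0) :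
    (n * m) • b = 0 := by
  rw [smul_add, h6, zero_add, ← mul_smul] at h7
  exact h7

theorem arith2 {l k j : ℕ} {x y : A} (hk : l ^ k • x = 0) (hj : l ^ j • y = 0) :
    ((l ^ (k + j) : ℕ) : ℤ) • (x - y) = 0 := by
  rw [natCast_zsmul, smul_sub, pow_add, mul_smul (l ^ k) (l ^ j) y, hj, smul_zero,
    mul_comm (l ^ k), mul_smul, hk, smul_zero, sub_zero]

theorem arith3 {n m : ℤ} {z : A} (h4 : n • z = 0) (h6 : m • z = 0) (h : IsCoprime n m) : z = 0 := by
  obtain ⟨a, b, hab⟩ := h
  have h7 : z = (a * n + b * m) • z := by rw [hab, one_smul]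
  rw [add_smul, mul_smul, mul_smul, h4, h6, smul_zero, smul_zero, add_zero] at h7
  exact h7

end arith

section main
variable {Γ M : Type} [Group Γ] [AddCommGroup M] (S : Dat Γ M)
variable {G : Type} [Group G] [Finite G] (π : Γ →* G) (s : G → Γ) (hs : ∀ g, π (s g) = g)
  (hN : π.ker ∈ S.U)

/-- corestriction -/
noncomputable def crc (H : Subgroup G) : Sm S π.ker →+ Sm S (H.comap π) :=
  let _ : Fintype H := Fintype.ofFinite H
  cr S π s hs H hN

theorem crc_norm (H : Subgroup G) (x : Sm S π.ker) (hx : crc S π s hs hN H x = 0) :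
    let _ : Fintype G := Fintype.ofFinite G
    (Nat.card G : ℤ) • ∑ g : G, (if g ∈ H then ac S π (s g) x else 0) = 0 := by
  intro _
  let _ : Fintype H := Fintype.ofFinite H
  have h1 : rs S π H (cr S π s hs H hN x) = Fintype.card H • ∑ h : H, ac S π (s h) x := by
    have h2 := DFunLike.congr_fun (rs_cr S π s hs H hN) x
    rw [AddMonoidHom.nsmul_apply, AddMonoidHom.finsetSum_apply] at h2
    exact h2
  have h3 : cr S π s hs H hN x = 0 := hx
  rw [h3, map_zero] at h1
  have h4 : ∑ g : G, (if g ∈ H then ac S π (s g) x else 0) = ∑ h : H, ac S π (s h) x := by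
    rw [← Finset.sum_filter]
    exact Finset.sum_subtype _ (fun g => by simp) _
  obtain ⟨k, hk⟩ : Nat.card H ∣ Nat.card G := Subgroup.card_subgroup_dvd_card H
  rw [h4, hk, mul_comm, Nat.cast_mul, mul_smul, natCast_zsmul _ (Nat.card H),
    Nat.card_eq_fintype_card, ← h1, smul_zero]

/-- **the norm relation** -/
theorem kill (hG : ∀ g : G, g ≠ 1 → (orderOf g).Prime) (hc : ¬ IsCyclic G) (x : Sm S π.ker)
    (hx : ∀ H : Subgroup G, H ≠ ⊥ → crc S π s hs hN H x = 0) :
    ((Nat.card G : ℤ) * (((prs G).card : ℤ) - 1)) • x = 0 := by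
  let _ : Fintype G := Fintype.ofFinite G
  have h1 := sum_part hG (fun g => ac S π (s g) x)
  have h2 : ac S π (s 1) x = x := by
    rw [ac_ker S π (s 1) (by rw [MonoidHom.mem_ker, hs])]
    rfl
  have h3 : ∀ H ∈ prs G, (Nat.card G : ℤ) • ∑ g : G, (if g ∈ H then ac S π (s g) x else 0) = 0 := by
    intro H hH
    refine crc_norm S π s hs hN H x (hx H ?_)
    rintro rfl
    have h4 := mem_prs.1 hH
    rw [Subgroup.card_bot] at h4
    exact Nat.not_prime_one h4
  have htop : (⊤ : Subgroup G) ≠ ⊥ := by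
    intro h
    refine hc ?_
    have : Subsingleton G := (Subgroup.subsingleton_iff).1 (subsingleton_iff_bot_eq_top.1 h.symm)
    infer_instance
  have h5 := crc_norm S π s hs hN ⊤ x (hx ⊤ htop)
  have h6 : (Nat.card G : ℤ) • ∑ g : G, (if g ∈ (⊤ : Subgroup G) then ac S π (s g) x else 0) = 0 := h5
  simp only [Subgroup.mem_top, if_true] at h6
  have h7 : (Nat.card G : ℤ) • ∑ H ∈ prs G, ∑ g : G, (if g ∈ H then ac S π (s g) x else 0) = 0 := by
    rw [Finset.smul_sum]
    exact Finset.sum_eq_zero h3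
  rw [h1, h2] at h7
  exact arith1 h7 h6

/-- for all but finitely many primes, the primary part is finite -/
def FinPP (A : Type) [AddCommGroup A] : Prop :=
  {l : ℕ | l.Prime ∧ ¬ {x : A | ∃ k : ℕ, l ^ k • x = 0}.Finite}.Finite

include hs hN in
theorem fin_ker (hG : ∀ g : G, g ≠ 1 → (orderOf g).Prime) (hc : ¬ IsCyclic G)
    (h : ∀ H : Subgroup G, H ≠ ⊥ → FinPP (Sm S (H.comap π))) : FinPP (Sm S π.ker) := by
  set n : ℤ := (Nat.card G : ℤ) * (((prs G).card : ℤ) - 1) with hn
  have hn0 : n ≠ 0 := mul_ne_zero (by exact_mod_cast Nat.card_pos.ne') (card_prs hG hc)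
  have hbad : (⋃ H : {H : Subgroup G // H ≠ ⊥},
      {l : ℕ | l.Prime ∧ ¬ {x : Sm S (H.1.comap π) | ∃ k : ℕ, l ^ k • x = 0}.Finite}).Finite :=
    Set.finite_iUnion fun H => h H.1 H.2
  have hbad2 : {l : ℕ | l ∣ n.natAbs}.Finite := by
    refine (Set.finite_Iic n.natAbs).subset fun l hl => ?_
    exact Nat.le_of_dvd (Int.natAbs_pos.2 hn0) hl
  refine (hbad.union hbad2).subset ?_
  rintro l ⟨hl, hinf⟩
  by_contra hcon
  rw [Set.mem_union, not_or] at hcon
  obtain ⟨h1, h2⟩ := hcon
  have h3 : ∀ H : {H : Subgroup G // H ≠ ⊥},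
      {x : Sm S (H.1.comap π) | ∃ k : ℕ, l ^ k • x = 0}.Finite := by
    intro H
    by_contra h4
    exact h1 (Set.mem_iUnion.2 ⟨H, hl, h4⟩)
  refine hinf ?_
  let Φ : Sm S π.ker → (∀ H : {H : Subgroup G // H ≠ ⊥}, Sm S (H.1.comap π)) :=
    fun x H => crc S π s hs hN H.1 x
  have hfin : (Set.pi Set.univ fun H : {H : Subgroup G // H ≠ ⊥} =>
      {x : Sm S (H.1.comap π) | ∃ k : ℕ, l ^ k • x = 0}).Finite := Set.Finite.pi fun H => h3 H
  refine Set.Finite.of_finite_image (f := Φ) (hfin.subset ?_) ?_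
  · rintro _ ⟨x, ⟨k, hk⟩, rfl⟩ H _
    refine ⟨k, ?_⟩
    change l ^ k • crc S π s hs hN H.1 x = 0
    rw [← map_nsmul, hk, map_zero]
  · rintro x ⟨k, hk⟩ y ⟨j, hj⟩ hxy
    have h4 : n • (x - y) = 0 := by
      refine kill S π s hs hN hG hc (x - y) fun H hH => ?_
      have h5 : crc S π s hs hN H x = crc S π s hs hN H y := congrFun hxy ⟨H, hH⟩
      rw [map_sub, h5, sub_self]
    have h6 : ((l ^ (k + j) : ℕ) : ℤ) • (x - y) = 0 := arith2 hk hj
    have hcop : IsCoprime n ((l ^ (k + j) : ℕ) : ℤ) := by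
      rw [Int.isCoprime_iff_nat_coprime, Int.natAbs_natCast]
      refine Nat.Coprime.pow_right _ ?_
      exact ((Nat.Prime.coprime_iff_not_dvd hl).2 h2).symm
    exact sub_eq_zero.1 (arith3 h4 h6 hcop)

end main

end Pool.Agent.R333.Sel
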