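import Pool.Agent.R333.Sel.Def
import Pool.Agent.R333.Sel.Gal

/-! Towers. -/

set_option autoImplicit false

namespace Pool.Agent.R333.Sel

open scoped Classical

open Module TensorProduct
open Pool.Agent.R433.MD (fx)

section
variable {K L Ω A : Type} [Field K] [Field L] [Field Ω] [Algebra K L] [Algebra L Ω] [Algebra K Ω]
  [IsScalarTower K L Ω]

theorem jr_eq [Normal K L] (M : IntermediateField K L) :
    jr (K := K) (Ω := Ω) M = M.fixingSubgroup.comap (AlgEquiv.restrictNormalHom L) := by
  ext σ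
  rw [mem_jr, Subgroup.mem_comap, IntermediateField.mem_fixingSubgroup_iff]
  constructor
  · intro h x hx
    apply (algebraMap L Ω).injective
    have h1 : algebraMap L Ω (AlgEquiv.restrictNormal σ L x) = σ (algebraMap L Ω x) :=
      AlgEquiv.restrictNormal_commutes σ L x
    have h2 : σ (algebraMap L Ω x) = algebraMap L Ω x := h ⟨x, hx⟩
    exact h1.trans h2
  · intro h x
    have h1 : algebraMap L Ω (AlgEquiv.restrictNormal σ L x) = σ (algebraMap L Ω x) :=
      AlgEquiv.restrictNormal_commutes σ L x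
    have h2 : AlgEquiv.restrictNormal σ L (x : L) = x := h x x.2
    rw [h2] at h1
    exact h1.symm

theorem jr_top [Normal K L] : jr (K := K) (Ω := Ω) L =
    (AlgEquiv.restrictNormalHom (F := K) (K₁ := Ω) L).ker := by
  ext σ
  rw [mem_jr, MonoidHom.mem_ker]
  constructor
  · intro h
    refine AlgEquiv.ext fun x => ?_
    apply (algebraMap L Ω).injective
    have h1 : algebraMap L Ω (AlgEquiv.restrictNormal σ L x) = σ (algebraMap L Ω x) :=
      AlgEquiv.restrictNormal_commutes σ L x
    exact h1.trans (h x)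
  · intro h x
    have h1 : algebraMap L Ω (AlgEquiv.restrictNormalHom L σ x) = σ (algebraMap L Ω x) :=
      AlgEquiv.restrictNormal_commutes σ L x
    rw [h] at h1
    exact h1.symm

variable [AddCommGroup A] (ρ : Gal(Ω/K) →* AddMonoid.End A) (T : AddSubgroup A)
  (hT : ∀ σ, ∀ x ∈ T, ρ σ x ∈ T)
  (hρ : ∀ P : A, ∃ s : Finset Ω, ∀ σ : Gal(Ω/K), (∀ x ∈ s, σ x = x) → ρ σ P = P)
  [Algebra.IsAlgebraic K Ω]

theorem ker_open [Normal K L] [FiniteDimensional K L] :
    (AlgEquiv.restrictNormalHom (F := K) (K₁ := Ω) L).ker ∈ (sdat ρ T hT hρ).U := by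
  refine ⟨inferInstance, Finset.univ.image fun i => algebraMap L Ω (Module.finBasis K L i),
    fun σ hσ => ?_⟩
  rw [MonoidHom.mem_ker]
  have h1 : (AlgEquiv.restrictNormalHom L σ : Gal(L/K)).toLinearMap = LinearMap.id := by
    refine (Module.finBasis K L).ext fun i => ?_
    apply (algebraMap L Ω).injective
    have h2 : algebraMap L Ω (AlgEquiv.restrictNormal σ L (Module.finBasis K L i)) =
        σ (algebraMap L Ω (Module.finBasis K L i)) := AlgEquiv.restrictNormal_commutes σ L _
    exact h2.trans (hσ _ (Finset.mem_image_of_mem _ (Finset.mem_univ i)))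
  refine AlgEquiv.ext fun x => ?_
  exact LinearMap.congr_fun h1 x

include hT hρ in
/-- **relations between Selmer ranks** -/
theorem sel_rel2 [Normal K Ω] [Normal K L] [FiniteDimensional K L]
    (R W k : Type) [CommRing R] [AddCommGroup W] [Module R W] [Field k] [CharZero k]
    [Algebra R k] (M : IntermediateField K L) {ι : Type} [Fintype ι] [Nonempty ι]
    (F : ι → IntermediateField M L) (e : ι → ℤ) (m : ℤ)
    (h : ∀ g : Gal(L/M), ∑ i, e i * fx (F i).fixingSubgroup g = m) (r : ι → ℕ)
    (hr : ∀ i, Module.rank k (k ⊗[R] (Sel (resAct ρ ((F i).restrictScalars K)) T →+ W)) = r i) :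
    ∃ r0 : ℕ, Module.rank k (k ⊗[R] (Sel (resAct ρ M) T →+ W)) = r0 ∧
      m * (r0 : ℤ) = ∑ i, e i * (r i : ℤ) := by
  have hsurj : Function.Surjective (AlgEquiv.restrictNormalHom L : Gal(Ω/K) → Gal(L/K)) :=
    AlgEquiv.restrictNormalHom_surjective Ω
  choose s hs using hsurj
  obtain ⟨r0, h1, h2⟩ := rel_V (sdat ρ T hT hρ) (AlgEquiv.restrictNormalHom L) s hs R W k
    (ker_open ρ T hT hρ) (jj M) (jj_inj M) (fun i => (F i).fixingSubgroup) e m h r (fun i => by
      rw [jj_map, ← jr_eq, ← hr i]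
      exact (rank_congr R W k (selEquiv ρ T hT hρ ((F i).restrictScalars K))).symm)
  refine ⟨r0, ?_, h2⟩
  rw [← h1, jj_range, ← jr_eq]
  exact rank_congr R W k (selEquiv ρ T hT hρ M)

end

end Pool.Agent.R333.Sel
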